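import Mathlib
import Pool.Agent.Lib.MP_11349d_lc.Stmt

/-!
# Definable predicates over the structures `V_β`

Types over a base type `A` (and fixed types `F i`), their codes in `V_β` (`β` a limit ordinal), and
predicates which are given by one formula for all `β` and `A`.
-/

set_option autoImplicit false

namespace Pool.Agent.BPF.R

open Pool.Agent.Lib.BVM ZFSet

/-! ### Renaming of variables -/

/-- `f` shifted by one, with `0 ↦ 0` -/
def lft (f : ℕ → ℕ) : ℕ → ℕ
  | 0 => 0
  | n + 1 => f n + 1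

/-- the formula with variables renamed by `f` -/
def ren : (ℕ → ℕ) → Fm → Fm
  | f, .mem i j => .mem (f i) (f j)
  | f, .eq i j => .eq (f i) (f j)
  | f, .neg φ => .neg (ren f φ)
  | f, .and φ ψ => .and (ren f φ) (ren f ψ)
  | f, .or φ ψ => .or (ren f φ) (ren f ψ)
  | f, .imp φ ψ => .imp (ren f φ) (ren f ψ)
  | f, .iff φ ψ => .iff (ren f φ) (ren f ψ)
  | f, .all φ => .all (ren (lft f) φ)
  | f, .ex φ => .ex (ren (lft f) φ)

theorem scons_lft {M : Type*} (x : M) (v : ℕ → M) (f : ℕ → ℕ) :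
    scons x v ∘ lft f = scons x (v ∘ f) := by
  funext n
  cases n <;> rfl

theorem sat_ren {M : Type*} (E : M → M → Prop) (φ : Fm) :
    ∀ (f : ℕ → ℕ) (v : ℕ → M), sat E (ren f φ) v ↔ sat E φ (v ∘ f) := by
  induction φ with
  | mem i j => intro f v; exact Iff.rfl
  | eq i j => intro f v; exact Iff.rfl
  | neg φ ih => intro f v; exact not_congr (ih f v)
  | and φ ψ ih ih' => intro f v; exact and_congr (ih f v) (ih' f v)
  | or φ ψ ih ih' => intro f v; exact or_congr (ih f v) (ih' f v)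
  | imp φ ψ ih ih' => intro f v; exact imp_congr (ih f v) (ih' f v)
  | iff φ ψ ih ih' => intro f v; exact iff_congr (ih f v) (ih' f v)
  | all φ ih =>
    intro f v
    refine forall_congr' fun x => ?_
    rw [ih, scons_lft]
  | ex φ ih =>
    intro f v
    refine exists_congr fun x => ?_
    rw [ih, scons_lft]

/-! ### Parameters, types and codes -/

/-- the code of a list of sets -/
noncomputable def cl : List ZFSet.{0} → ZFSet.{0}
  | [] => ∅
  | x :: l => pair x (cl l)

/-- fixed types `F i`, coded in the universe of sets, and a list `l` of sets -/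
structure Pr where
  Ix : Type
  F : Ix → Type
  j : ∀ i, F i → ZFSet.{0}
  inj : ∀ i, Function.Injective (j i)
  l : List ZFSet.{0}
  hl : ∀ i, range (j i) ∈ l

/-- a set `Z = ι[A]` in `V_β`, for a limit ordinal `β` -/
structure Bs (P : Pr) where
  β : Ordinal.{0}
  lim : ∀ δ < β, δ + 1 < β
  ha : cl P.l ∈ V_ β
  A : Type
  ι : A → ZFSet.{0}
  inj : Function.Injective ι
  Zβ : range ι ∈ V_ β

/-- types -/
inductive Ty (Ix : Type) : Type
  | A
  | F (i : Ix)
  | set (t : Ty Ix)
  | fn (s t : Ty Ix)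
  | sum (s t : Ty Ix)

variable {P : Pr}

/-- the type denoted by `t` -/
@[reducible] def den (P : Pr) (A : Type) : Ty P.Ix → Type
  | .A => A
  | .F i => P.F i
  | .set t => Set (den P A t)
  | .fn s t => den P A s → den P A t
  | .sum s t => den P A s ⊕ den P A t

/-- the codes of the elements of the type `t` -/
noncomputable def code (G : Bs P) : (t : Ty P.Ix) → den P G.A t → ZFSet.{0}
  | .A, x => G.ι x
  | .F i, x => P.j i x
  | .set t, S => range (fun x : {x : den P G.A t // x ∈ (show Set (den P G.A t) from S)} =>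
      code G t x.1)
  | .fn s t, f => range (fun x : den P G.A s =>
      pair (code G s x) (code G t ((show den P G.A s → den P G.A t from f) x)))
  | .sum s t, x => Sum.elim (fun y => pair ∅ (code G s y)) (fun y => pair {∅} (code G t y))
      (show den P G.A s ⊕ den P G.A t from x)

/-! ### Ranks -/

theorem rank_pr (x y : ZFSet.{0}) (δ : Ordinal.{0}) (hx : rank x < δ) (hy : rank y < δ) :
    rank (pair x y) < δ + 1 + 1 := by
  have h : rank (pair x y) ≤ δ + 1 := by
    rw [rank_le_iff]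
    intro z hz
    unfold pair at hz
    rw [ZFSet.mem_pair] at hz
    rcases hz with rfl | rfl
    · rw [rank_singleton]
      exact Order.lt_add_one_iff.2 (by simpa using hx)
    · rw [rank_pair]
      exact Order.lt_add_one_iff.2 (by simpa using ⟨hx, hy⟩)
  exact Order.lt_add_one_iff.2 h

theorem rank_lt_pr_left (x y : ZFSet.{0}) : rank x < rank (pair x y) := by
  have h1 : x ∈ ({x} : ZFSet.{0}) := ZFSet.mem_singleton.2 rfl
  have h2 : ({x} : ZFSet.{0}) ∈ pair x y := by
    unfold pair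
    exact ZFSet.mem_pair.2 (Or.inl rfl)
  exact (rank_lt_of_mem h1).trans (rank_lt_of_mem h2)

theorem rank_lt_pr_right (x y : ZFSet.{0}) : rank y < rank (pair x y) := by
  have h1 : y ∈ ({x, y} : ZFSet.{0}) := ZFSet.mem_pair.2 (Or.inr rfl)
  have h2 : ({x, y} : ZFSet.{0}) ∈ pair x y := by
    unfold pair
    exact ZFSet.mem_pair.2 (Or.inr rfl)
  exact (rank_lt_of_mem h1).trans (rank_lt_of_mem h2)

theorem rank_lt_cl {x : ZFSet.{0}} : ∀ {l : List ZFSet.{0}}, x ∈ l → rank x < rank (cl l)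
  | [], h => absurd h (by simp)
  | y :: l, h => by
    rcases List.mem_cons.1 h with rfl | h
    · exact rank_lt_pr_left _ _
    · exact (rank_lt_cl h).trans (rank_lt_pr_right _ _)

namespace Bs
variable (G : Bs P)

theorem two {δ : Ordinal.{0}} (h : δ < G.β) : δ + 1 + 1 < G.β := G.lim _ (G.lim _ h)

theorem zero_lt : 0 < G.β := by
  have h := mem_vonNeumann.1 G.ha
  exact lt_of_le_of_lt zero_le h

theorem l_mem {x : ZFSet.{0}} (h : x ∈ P.l) : x ∈ V_ G.β :=
  mem_vonNeumann.2 ((rank_lt_cl h).trans (mem_vonNeumann.1 G.ha))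

theorem pair_mem {x y : ZFSet.{0}} (hx : x ∈ V_ G.β) (hy : y ∈ V_ G.β) : pair x y ∈ V_ G.β := by
  rw [mem_vonNeumann] at hx hy ⊢
  have h := G.lim _ (max_lt hx hy)
  have h' : rank (pair x y) < max (rank x) (rank y) + 1 + 1 + 1 :=
    rank_pr x y _ (Order.lt_add_one_iff.2 (le_max_left _ _)) (Order.lt_add_one_iff.2 (le_max_right _ _))
  exact h'.trans (G.two h)

theorem mem_trans {x y : ZFSet.{0}} (hx : x ∈ y) (hy : y ∈ V_ G.β) : x ∈ V_ G.β :=
  mem_vonNeumann.2 ((rank_lt_of_mem hx).trans (mem_vonNeumann.1 hy))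

theorem empty_mem : (∅ : ZFSet.{0}) ∈ V_ G.β := by
  rw [mem_vonNeumann, rank_empty]
  exact G.zero_lt

theorem singleton_mem {x : ZFSet.{0}} (hx : x ∈ V_ G.β) : ({x} : ZFSet.{0}) ∈ V_ G.β := by
  rw [mem_vonNeumann] at hx ⊢
  rw [rank_singleton]
  exact G.lim _ hx

end Bs

theorem bdd (G : Bs P) : ∀ t : Ty P.Ix, ∃ δ < G.β, ∀ x : den P G.A t, rank (code G t x) < δ
  | .A => ⟨rank (range G.ι), mem_vonNeumann.1 G.Zβ,
      fun x => rank_lt_of_mem (mem_range.2 ⟨x, rfl⟩)⟩
  | .F i => ⟨rank (range (P.j i)), mem_vonNeumann.1 (G.l_mem (P.hl i)),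
      fun x => rank_lt_of_mem (mem_range.2 ⟨x, rfl⟩)⟩
  | .set t => by
    obtain ⟨δ, hδ, h⟩ := bdd G t
    refine ⟨δ + 1, G.lim _ hδ, fun S => Order.lt_add_one_iff.2 (rank_le_iff.2 ?_)⟩
    intro z hz
    obtain ⟨x, rfl⟩ := mem_range.1 hz
    exact h _
  | .fn s t => by
    obtain ⟨δ, hδ, h⟩ := bdd G s
    obtain ⟨δ', hδ', h'⟩ := bdd G t
    refine ⟨max δ δ' + 1 + 1 + 1, G.lim _ (G.two (max_lt hδ hδ')),
      fun f => Order.lt_add_one_iff.2 (rank_le_iff.2 ?_)⟩
    intro z hz
    obtain ⟨x, rfl⟩ := mem_range.1 hz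
    exact rank_pr _ _ _ ((h _).trans_le (le_max_left _ _)) ((h' _).trans_le (le_max_right _ _))
  | .sum s t => by
    obtain ⟨δ, hδ, h⟩ := bdd G s
    obtain ⟨δ', hδ', h'⟩ := bdd G t
    refine ⟨max (max δ δ') (0 + 1 + 1) + 1 + 1, G.two (max_lt (max_lt hδ hδ') (G.two G.zero_lt)), ?_⟩
    have h0 : rank (∅ : ZFSet.{0}) < max (max δ δ') (0 + 1 + 1) := by
      rw [rank_empty]
      exact lt_of_lt_of_le (by simp) (le_max_right _ _)
    have h1 : rank ({∅} : ZFSet.{0}) < max (max δ δ') (0 + 1 + 1) := by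
      rw [rank_singleton, rank_empty]
      refine lt_of_lt_of_le ?_ (le_max_right _ _)
      simp
    rintro (x | x)
    · exact rank_pr _ _ _ h0 ((h x).trans_le ((le_max_left _ _).trans (le_max_left _ _)))
    · exact rank_pr _ _ _ h1 ((h' x).trans_le ((le_max_right _ _).trans (le_max_left _ _)))

theorem code_mem (G : Bs P) (t : Ty P.Ix) (x : den P G.A t) : code G t x ∈ V_ G.β := by
  obtain ⟨δ, hδ, h⟩ := bdd G t
  exact mem_vonNeumann.2 ((h x).trans hδ)

end Pool.Agent.BPF.R
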