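import Pool.Agent.Lib.MP_11349d_lc.R.Core

/-! # Contexts, definable predicates and definable elements -/

set_option autoImplicit false

namespace Pool.Agent.BPF.R

open Pool.Agent.Lib.BVM ZFSet

variable {P : Pr}

/-- a context: assignments for the formulas -/
structure Cx (P : Pr) where
  Γ : Type 1
  b : Γ → Bs P
  v : ∀ γ, ℕ → {x : ZFSet.{0} // x ∈ V_ (b γ).β}
  hZ : ∃ n, ∀ γ, (v γ n).1 = range (b γ).ι
  ha : ∃ n, ∀ γ, (v γ n).1 = cl P.l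

/-- the context extended by an element of `V_β` -/
def Cx.extV (c : Cx P) : Cx P where
  Γ := Σ γ : c.Γ, {x : ZFSet.{0} // x ∈ V_ (c.b γ).β}
  b γ := c.b γ.1
  v γ := scons γ.2 (c.v γ.1)
  hZ := by
    obtain ⟨n, h⟩ := c.hZ
    exact ⟨n + 1, fun γ => h γ.1⟩
  ha := by
    obtain ⟨n, h⟩ := c.ha
    exact ⟨n + 1, fun γ => h γ.1⟩

/-- the context extended by an element of the type `t` -/
noncomputable def Cx.ext (c : Cx P) (t : Ty P.Ix) : Cx P where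
  Γ := Σ γ : c.Γ, den P (c.b γ).A t
  b γ := c.b γ.1
  v γ := scons ⟨code (c.b γ.1) t γ.2, code_mem _ t _⟩ (c.v γ.1)
  hZ := by
    obtain ⟨n, h⟩ := c.hZ
    exact ⟨n + 1, fun γ => h γ.1⟩
  ha := by
    obtain ⟨n, h⟩ := c.ha
    exact ⟨n + 1, fun γ => h γ.1⟩

/-- definable predicates -/
def Df (c : Cx P) (R : c.Γ → Prop) : Prop :=
  ∃ φ : Fm, ∀ γ, sat (memV (c.b γ).β) φ (c.v γ) ↔ R γ

/-- definable elements -/
def DT (c : Cx P) (u : c.Γ → ZFSet.{0}) : Prop :=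
  (∀ γ, u γ ∈ V_ (c.b γ).β) ∧ Df c.extV (fun γ => γ.2.1 = u γ.1)

section rules
variable {c : Cx P} {R S : c.Γ → Prop} {u w : c.Γ → ZFSet.{0}}

theorem Df.congr (h : Df c R) (h' : ∀ γ, R γ ↔ S γ) : Df c S := by
  obtain ⟨φ, hφ⟩ := h
  exact ⟨φ, fun γ => (hφ γ).trans (h' γ)⟩

theorem Df.not (h : Df c R) : Df c (fun γ => ¬ R γ) := by
  obtain ⟨φ, hφ⟩ := h
  exact ⟨.neg φ, fun γ => not_congr (hφ γ)⟩

theorem Df.and (h : Df c R) (h' : Df c S) : Df c (fun γ => R γ ∧ S γ) := by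
  obtain ⟨φ, hφ⟩ := h
  obtain ⟨ψ, hψ⟩ := h'
  exact ⟨.and φ ψ, fun γ => and_congr (hφ γ) (hψ γ)⟩

theorem Df.or (h : Df c R) (h' : Df c S) : Df c (fun γ => R γ ∨ S γ) := by
  obtain ⟨φ, hφ⟩ := h
  obtain ⟨ψ, hψ⟩ := h'
  exact ⟨.or φ ψ, fun γ => or_congr (hφ γ) (hψ γ)⟩

theorem Df.imp (h : Df c R) (h' : Df c S) : Df c (fun γ => R γ → S γ) := by
  obtain ⟨φ, hφ⟩ := h
  obtain ⟨ψ, hψ⟩ := h'
  exact ⟨.imp φ ψ, fun γ => imp_congr (hφ γ) (hψ γ)⟩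

theorem Df.iff (h : Df c R) (h' : Df c S) : Df c (fun γ => R γ ↔ S γ) := by
  obtain ⟨φ, hφ⟩ := h
  obtain ⟨ψ, hψ⟩ := h'
  exact ⟨.iff φ ψ, fun γ => iff_congr (hφ γ) (hψ γ)⟩

theorem Df.allV {R : c.Γ → ZFSet.{0} → Prop} (h : Df c.extV (fun γ => R γ.1 γ.2.1)) :
    Df c (fun γ => ∀ z ∈ V_ (c.b γ).β, R γ z) := by
  obtain ⟨φ, hφ⟩ := h
  refine ⟨.all φ, fun γ => ⟨fun h z hz => ?_, fun h z => ?_⟩⟩
  · exact (hφ ⟨γ, ⟨z, hz⟩⟩).1 (h ⟨z, hz⟩)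
  · exact (hφ ⟨γ, z⟩).2 (h z.1 z.2)

theorem Df.exV {R : c.Γ → ZFSet.{0} → Prop} (h : Df c.extV (fun γ => R γ.1 γ.2.1)) :
    Df c (fun γ => ∃ z ∈ V_ (c.b γ).β, R γ z) := by
  obtain ⟨φ, hφ⟩ := h
  refine ⟨.ex φ, fun γ => ⟨?_, ?_⟩⟩
  · rintro ⟨z, hz⟩
    exact ⟨z.1, z.2, (hφ ⟨γ, z⟩).1 hz⟩
  · rintro ⟨z, hz, h⟩
    exact ⟨⟨z, hz⟩, (hφ ⟨γ, ⟨z, hz⟩⟩).2 h⟩

/-- substitution of a definable element -/
theorem Df.sub {R : c.Γ → ZFSet.{0} → Prop} (hu : DT c u)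
    (h : Df c.extV (fun γ => R γ.1 γ.2.1)) : Df c (fun γ => R γ (u γ)) := by
  refine (Df.exV (R := fun γ z => z = u γ ∧ R γ z) (hu.2.and h)).congr fun γ => ?_
  constructor
  · rintro ⟨z, -, rfl, h⟩
    exact h
  · intro h
    exact ⟨u γ, hu.1 γ, rfl, h⟩

theorem sat_cast {β β' : Ordinal.{0}} (h : β = β') (φ : Fm)
    (v : ℕ → {x : ZFSet.{0} // x ∈ V_ β}) (v' : ℕ → {x : ZFSet.{0} // x ∈ V_ β'})
    (hv : ∀ i, (v i).1 = (v' i).1) : sat (memV β) φ v ↔ sat (memV β') φ v' := by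
  subst h
  have : v = v' := by
    funext i
    exact Subtype.ext (hv i)
  rw [this]

theorem Df.ren {c' : Cx P} (f : ℕ → ℕ) (m : c'.Γ → c.Γ)
    (hβ : ∀ γ, (c'.b γ).β = (c.b (m γ)).β)
    (hv : ∀ γ i, (c'.v γ (f i)).1 = (c.v (m γ) i).1) (h : Df c R) :
    Df c' (fun γ => R (m γ)) := by
  obtain ⟨φ, hφ⟩ := h
  refine ⟨BPF.R.ren f φ, fun γ => ?_⟩
  rw [sat_ren]
  exact (sat_cast (hβ γ) φ _ _ (hv γ)).trans (hφ (m γ))

/-! Weakening -/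

theorem Df.wkV (h : Df c R) : Df c.extV (fun γ => R γ.1) :=
  h.ren Nat.succ (c' := c.extV) (fun γ => γ.1) (fun _ => rfl) (fun _ _ => rfl)

theorem Df.wk (t : Ty P.Ix) (h : Df c R) : Df (c.ext t) (fun γ => R γ.1) :=
  h.ren Nat.succ (c' := c.ext t) (fun γ => γ.1) (fun _ => rfl) (fun _ _ => rfl)

theorem DT.wkV (h : DT c u) : DT c.extV (fun γ => u γ.1) :=
  ⟨fun γ => h.1 γ.1, h.2.ren (lft Nat.succ) (c' := c.extV.extV)
    (fun γ => (⟨γ.1.1, γ.2⟩ : c.extV.Γ))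
    (fun _ => rfl) (fun _ i => by cases i <;> rfl)⟩

theorem DT.wk (t : Ty P.Ix) (h : DT c u) : DT (c.ext t) (fun γ => u γ.1) :=
  ⟨fun γ => h.1 γ.1, h.2.ren (lft Nat.succ) (c' := (c.ext t).extV)
    (fun γ => (⟨γ.1.1, γ.2⟩ : c.extV.Γ))
    (fun _ => rfl) (fun _ i => by cases i <;> rfl)⟩

theorem DT.congr {u' : c.Γ → ZFSet.{0}} (h : DT c u) (h' : ∀ γ, u γ = u' γ) : DT c u' := by
  have : u = u' := funext h'
  rwa [this] at h

theorem DT.var (n : ℕ) (h : ∀ γ, (c.v γ n).1 = u γ) : DT c u := by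
  refine ⟨fun γ => ?_, ⟨.eq 0 (n + 1), fun γ => ?_⟩⟩
  · rw [← h]
    exact (c.v γ n).2
  · show γ.2 = c.v γ.1 n ↔ γ.2.1 = u γ.1
    rw [← h]
    exact Subtype.ext_iff

theorem DT.zV : DT c.extV (fun γ => γ.2.1) := DT.var 0 fun _ => rfl

theorem DT.z (t : Ty P.Ix) : DT (c.ext t) (fun γ => code (c.b γ.1) t γ.2) := DT.var 0 fun _ => rfl

/-! Atomic predicates -/

theorem Df.mem (hu : DT c u) (hw : DT c w) : Df c (fun γ => u γ ∈ w γ) := by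
  have h0 : Df c.extV.extV (fun γ => γ.1.2.1 ∈ γ.2.1) := ⟨.mem 1 0, fun _ => Iff.rfl⟩
  have h1 : Df c.extV (fun γ => γ.2.1 ∈ w γ.1) :=
    Df.sub (c := c.extV) (R := fun γ z => γ.2.1 ∈ z) hw.wkV h0
  exact Df.sub (R := fun γ z => z ∈ w γ) hu h1

theorem Df.eq (hu : DT c u) (hw : DT c w) : Df c (fun γ => u γ = w γ) :=
  Df.sub (R := fun γ z => z = w γ) hu hw.2

/-- quantifiers over the elements of a definable set -/
theorem Df.allM {R : c.Γ → ZFSet.{0} → Prop} (hu : DT c u)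
    (h : Df c.extV (fun γ => R γ.1 γ.2.1)) : Df c (fun γ => ∀ z ∈ u γ, R γ z) := by
  refine (Df.allV (R := fun γ z => z ∈ u γ → R γ z) ((Df.mem DT.zV hu.wkV).imp h)).congr
    fun γ => ⟨fun h z hz => h z ((c.b γ).mem_trans hz (hu.1 γ)) hz, fun h z _ hz => h z hz⟩

theorem Df.exM {R : c.Γ → ZFSet.{0} → Prop} (hu : DT c u)
    (h : Df c.extV (fun γ => R γ.1 γ.2.1)) : Df c (fun γ => ∃ z ∈ u γ, R γ z) := by
  refine (Df.exV (R := fun γ z => z ∈ u γ ∧ R γ z) ((Df.mem DT.zV hu.wkV).and h)).congr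
    fun γ => ⟨?_, ?_⟩
  · rintro ⟨z, _, hz, h⟩
    exact ⟨z, hz, h⟩
  · rintro ⟨z, hz, h⟩
    exact ⟨z, (c.b γ).mem_trans hz (hu.1 γ), hz, h⟩

/-- a definable element given by a definable condition on its elements -/
theorem DT.of_mem {K : c.Γ → ZFSet.{0} → Prop} (hu : ∀ γ, u γ ∈ V_ (c.b γ).β)
    (hK : ∀ γ z, z ∈ u γ ↔ K γ z) (h : Df c.extV (fun γ => K γ.1 γ.2.1)) : DT c u := by
  refine ⟨hu, ?_⟩
  have h1 : Df c.extV.extV (fun γ => γ.2.1 ∈ γ.1.2.1 ↔ K γ.1.1 γ.2.1) :=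
    (Df.mem DT.zV DT.zV.wkV).iff (h.ren (lft Nat.succ) (c' := c.extV.extV)
      (fun γ => (⟨γ.1.1, γ.2⟩ : c.extV.Γ)) (fun _ => rfl) (fun _ i => by cases i <;> rfl))
  refine (Df.allV (c := c.extV) (R := fun γ z => z ∈ γ.2.1 ↔ K γ.1 z) h1).congr fun γ => ?_
  constructor
  · intro h
    refine ZFSet.ext fun z => ?_
    by_cases hz : z ∈ V_ (c.b γ.1).β
    · exact (h z hz).trans (hK γ.1 z).symm
    · exact ⟨fun h' => absurd ((c.b γ.1).mem_trans h' γ.2.2) hz,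
        fun h' => absurd ((c.b γ.1).mem_trans h' (hu γ.1)) hz⟩
  · intro h z _
    rw [h]
    exact hK γ.1 z

theorem DT.empty : DT c (fun _ => ∅) := by
  refine DT.of_mem (K := fun _ z => ¬ z = z) (fun γ => (c.b γ).empty_mem) ?_ ?_
  · intro γ z
    simp
  · exact (Df.eq DT.zV DT.zV).not

theorem DT.upair (hu : DT c u) (hw : DT c w) : DT c (fun γ => {u γ, w γ}) := by
  refine DT.of_mem (K := fun γ z => z = u γ ∨ z = w γ) (fun γ => ?_)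
    (fun γ z => ZFSet.mem_pair) ((Df.eq DT.zV hu.wkV).or (Df.eq DT.zV hw.wkV))
  have h1 := mem_vonNeumann.1 (hu.1 γ)
  have h2 := mem_vonNeumann.1 (hw.1 γ)
  rw [mem_vonNeumann, rank_pair]
  exact max_lt ((c.b γ).lim _ h1) ((c.b γ).lim _ h2)

theorem DT.singleton (hu : DT c u) : DT c (fun γ => {u γ}) :=
  (hu.upair hu).congr fun _ => pair_eq_singleton _

theorem DT.pair (hu : DT c u) (hw : DT c w) : DT c (fun γ => pair (u γ) (w γ)) :=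
  (hu.singleton.upair (hu.upair hw)).congr fun _ => rfl

/-! Parameters -/

theorem DT.Z : DT c (fun γ => range (c.b γ).ι) := by
  obtain ⟨n, h⟩ := c.hZ
  exact DT.var n h

/-- the components of a definable pair are definable -/
theorem DT.fst (h : DT c (fun γ => ZFSet.pair (u γ) (w γ))) : DT c u := by
  have hu : ∀ γ, u γ ∈ V_ (c.b γ).β := fun γ =>
    mem_vonNeumann.2 ((rank_lt_pr_left _ _).trans (mem_vonNeumann.1 (h.1 γ)))
  have hw : ∀ γ, w γ ∈ V_ (c.b γ).β := fun γ =>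
    mem_vonNeumann.2 ((rank_lt_pr_right _ _).trans (mem_vonNeumann.1 (h.1 γ)))
  refine ⟨hu, ?_⟩
  have h1 : Df c.extV.extV (fun γ => ZFSet.pair (u γ.1.1) (w γ.1.1) = ZFSet.pair γ.1.2.1 γ.2.1) :=
    Df.eq h.wkV.wkV (DT.zV.wkV.pair DT.zV)
  refine (Df.exV (c := c.extV) (R := fun γ z => ZFSet.pair (u γ.1) (w γ.1) = ZFSet.pair γ.2.1 z)
    h1).congr fun γ => ?_
  constructor
  · rintro ⟨z, -, hz⟩
    exact (pair_inj.1 hz).1.symm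
  · intro h'
    exact ⟨w γ.1, hw γ.1, by rw [h']⟩

theorem DT.snd (h : DT c (fun γ => ZFSet.pair (u γ) (w γ))) : DT c w := by
  have hu : ∀ γ, u γ ∈ V_ (c.b γ).β := fun γ =>
    mem_vonNeumann.2 ((rank_lt_pr_left _ _).trans (mem_vonNeumann.1 (h.1 γ)))
  have hw : ∀ γ, w γ ∈ V_ (c.b γ).β := fun γ =>
    mem_vonNeumann.2 ((rank_lt_pr_right _ _).trans (mem_vonNeumann.1 (h.1 γ)))
  refine ⟨hw, ?_⟩
  have h1 : Df c.extV.extV (fun γ => ZFSet.pair (u γ.1.1) (w γ.1.1) = ZFSet.pair γ.2.1 γ.1.2.1) :=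
    Df.eq h.wkV.wkV (DT.zV.pair DT.zV.wkV)
  refine (Df.exV (c := c.extV) (R := fun γ z => ZFSet.pair (u γ.1) (w γ.1) = ZFSet.pair z γ.2.1)
    h1).congr fun γ => ?_
  constructor
  · rintro ⟨z, -, hz⟩
    exact (pair_inj.1 hz).2.symm
  · intro h'
    exact ⟨u γ.1, hu γ.1, by rw [h']⟩

end rules

theorem DT.of_cl {c : Cx P} {x : ZFSet.{0}} :
    ∀ {l : List ZFSet.{0}}, DT c (fun _ => cl l) → x ∈ l → DT c (fun _ => x)
  | [], _, h => absurd h (by simp)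
  | y :: l, h, h' => by
    rcases List.mem_cons.1 h' with rfl | h'
    · exact DT.fst (w := fun _ => cl l) h
    · exact DT.of_cl (DT.snd (u := fun _ => y) (w := fun _ => cl l) h) h'

theorem DT.l {c : Cx P} {x : ZFSet.{0}} (h : x ∈ P.l) : DT c (fun _ => x) := by
  obtain ⟨n, hn⟩ := c.ha
  exact DT.of_cl (DT.var n hn) h

end Pool.Agent.BPF.R
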