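import Pool.Agent.Lib.MP_11349d_lc.Ifc

/-! # `HasExt` in terms of sets and functions -/

set_option autoImplicit false

namespace Pool.Agent.BPF.R

open Pool.Agent.BPF

/-- `HasExt` for a preorder `T`, with `y ∈ le x` for `x ≤ y` -/
def Flat {Ω T : Type} [Preorder T] (𝒞 : Finset (Ω × Ω) → Set T) (b : T) (A : Type) : Prop :=
  ∃ le : A → Set A, ∃ e : T → A, ∃ π : A → T, ∃ g : Ω → Ω → Set A,
    ((∀ x, x ∈ le x) ∧ ∀ x y z, y ∈ le x → z ∈ le y → z ∈ le x) ∧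
    ((∀ p q : T, p ≤ q → e q ∈ le (e p)) ∧ (∀ x y, y ∈ le x → π x ≤ π y) ∧
      (∀ p, π (e p) = p) ∧ (∀ x, e (π x) ∈ le x) ∧
      ∀ x p, p ≤ π x → ∃ y, x ∈ le y ∧ π y ≤ p) ∧
    (∃ C : Set (Set (A ⊕ Set A)),
      ((∀ c, c ∈ C → ∃ f : A ⊕ Set A → ℕ, ∀ x y, x ∈ c → y ∈ c → f x = f y → x = y) ∧
        (∀ x : Set (A ⊕ Set A), (∃ f : A ⊕ Set A → ℕ, ∀ u v, u ∈ x → v ∈ x → f u = f v → u = v) →
          ∃ c, c ∈ C ∧ ∀ u, u ∈ x → u ∈ c) ∧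
        ∀ c : ℕ → Set (A ⊕ Set A), (∀ n, c n ∈ C) → (∀ n m, m = n + 1 → ∀ u, u ∈ c n → u ∈ c m) →
          ∃ v : Set (A ⊕ Set A), (∀ u, u ∈ v ↔ ∃ n, u ∈ c n) ∧ v ∈ C) ∧
      ∀ N, N ∈ C → ∀ p : A, Sum.inl p ∈ N → ∀ q, q ≤ π p →
        (∀ D : Set T, (∃ D' : Set A, (∀ x, x ∈ D' ↔ ∃ d, d ∈ D ∧ e d = x) ∧ Sum.inr D' ∈ N) →
          (∀ p', ∃ d, d ∈ D ∧ d ≤ p') → ∀ q', q' ≤ q →
          ∃ d, d ∈ D ∧ Sum.inl (e d) ∈ N ∧ ∃ x, x ≤ d ∧ x ≤ q') →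
        ∃ r, p ∈ le r ∧ π r ≤ q ∧
          ∀ D : Set A, Sum.inr D ∈ N → (∀ x, ∃ d, d ∈ D ∧ x ∈ le d) → ∀ r', r ∈ le r' →
            ∃ d, d ∈ D ∧ Sum.inl d ∈ N ∧ ∃ x, d ∈ le x ∧ r' ∈ le x) ∧
    (∀ ξ η x y, x ∈ le y → x ∈ g ξ η → y ∈ g ξ η) ∧
    (∀ x, e b ∈ le x → ∀ ξ, ∃ y, x ∈ le y ∧ ∃ η, y ∈ g ξ η) ∧
    (∀ x, e b ∈ le x → ∀ ξ η η', x ∈ g ξ η → x ∈ g ξ η' → η = η') ∧
    ∀ x, e b ∈ le x → ∀ s : Finset (Ω × Ω),
      (∀ z : Ω × Ω, z ∈ s → ∀ ξ η, z.1 = ξ → z.2 = η → x ∈ g ξ η) →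
      ∃ y, x ∈ le y ∧ π y ∈ 𝒞 s

theorem countable_iff {U : Type} (s : Set U) :
    s.Countable ↔ ∃ f : U → ℕ, ∀ x y, x ∈ s → y ∈ s → f x = f y → x = y := by
  rw [Set.countable_iff_exists_injOn]
  constructor
  · rintro ⟨f, hf⟩
    exact ⟨f, fun x y hx hy h => hf hx hy h⟩
  · rintro ⟨f, hf⟩
    exact ⟨f, fun x hx y hy h => hf x y hx hy h⟩

theorem flat_iff {Ω T : Type} [Preorder T] (𝒞 : Finset (Ω × Ω) → Set T) (b : T) (A : Type) :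
    HasExt T 𝒞 b A ↔ Flat 𝒞 b A := by
  constructor
  · rintro ⟨_, X, g, ⟨C, hC, hN⟩, hR⟩
    refine ⟨fun x => {y | x ≤ y}, X.e, X.π, g, ⟨fun x => le_refl x, fun x y z h h' => le_trans h h'⟩,
      ⟨fun p q h => X.e_mono h, fun x y h => X.π_mono h, X.π_e, X.le_e, fun x p h => ?_⟩,
      ⟨C, ⟨fun c hc => (countable_iff c).1 (hC.cnt c hc), fun x hx => ?_, fun c hc hm => ?_⟩, ?_⟩,
      fun ξ η x y h hx => hR.down ξ η x y h hx, fun x hx ξ => ?_,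
      fun x hx ξ η η' h h' => hR.func x hx ξ η η' h h', fun x hx s hs => ?_⟩
    · obtain ⟨y, hy, h2⟩ := X.proj x p h
      exact ⟨y, hy, h2⟩
    · obtain ⟨c, hc, hx'⟩ := hC.unb x ((countable_iff x).2 hx)
      exact ⟨c, hc, fun u hu => hx' hu⟩
    · exact ⟨⋃ n, c n, fun u => Set.mem_iUnion, hC.cls c hc fun n u hu => hm n (n + 1) rfl u hu⟩
    · intro N hNC p hp q hq hB
      have hB' : X.GenB N q := by
        intro D hD hd q' hq'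
        obtain ⟨d, hd, hdN, x, hx, hx'⟩ := hB D ⟨X.e '' D, fun x => Iff.rfl, hD⟩ hd q' hq'
        exact ⟨d, hd, hdN, x, hx, hx'⟩
      obtain ⟨r, hr, hrq, hA⟩ := hN N hNC p hp q hq hB'
      refine ⟨r, hr, hrq, fun D hD hd r' hr' => ?_⟩
      obtain ⟨d, hd, hdN, x, hx, hx'⟩ := hA D hD hd r' hr'
      exact ⟨d, hd, hdN, x, hx, hx'⟩
    · obtain ⟨y, hy, η, h2⟩ := hR.total x hx ξ
      exact ⟨y, hy, η, h2⟩
    · obtain ⟨y, hy, h2⟩ := hR.fin x hx s fun z hz => hs z hz _ _ rfl rfl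
      exact ⟨y, hy, h2⟩
  · rintro ⟨le, e, π, g, ⟨h1, h2⟩, ⟨h3, h4, h5, h6, h7⟩, ⟨C, ⟨hC1, hC2, hC3⟩, hN⟩, g1, g2, g3, g4⟩
    let inst : Preorder A := {
      le := fun x y => y ∈ le x
      le_refl := h1
      le_trans := h2 }
    let X : PExt T A := {
      e := e
      π := π
      e_mono := fun {p q} h => h3 p q h
      π_mono := fun {x y} h => h4 x y h
      π_e := h5
      le_e := h6
      proj := fun x p h => by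
        obtain ⟨y, hy, h'⟩ := h7 x p h
        exact ⟨y, hy, h'⟩ }
    refine ⟨inst, X, g, ⟨C, ⟨fun c hc => (countable_iff c).2 (hC1 c hc), fun x hx => ?_,
      fun c hc hm => ?_⟩, ?_⟩, ⟨fun ξ η x y h hx => g1 ξ η x y h hx, fun x hx ξ => ?_,
      fun x hx ξ η η' h h' => g3 x hx ξ η η' h h', fun x hx s hs => ?_⟩⟩
    · obtain ⟨c, hc, hx'⟩ := hC2 x ((countable_iff x).1 hx)
      exact ⟨c, hc, fun u hu => hx' u hu⟩
    · obtain ⟨v, hv, hvC⟩ := hC3 c hc (by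
        rintro n m rfl u hu
        exact hm n hu)
      have : v = ⋃ n, c n := Set.ext fun u => (hv u).trans Set.mem_iUnion.symm
      rw [← this]
      exact hvC
    · intro N hNC p hp q hq hB
      obtain ⟨r, hr, hrq, hA⟩ := hN N hNC p hp q hq (by
        rintro D ⟨D', hD', hD'N⟩ hd q' hq'
        have hDD : D' = e '' D := Set.ext fun x => hD' x
        rw [hDD] at hD'N
        obtain ⟨d, hd, hdN, x, hx, hx'⟩ := hB D hD'N hd q' hq'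
        exact ⟨d, hd, hdN, x, hx, hx'⟩)
      refine ⟨r, hr, hrq, fun D hD hd r' hr' => ?_⟩
      obtain ⟨d, hd, hdN, x, hx, hx'⟩ := hA D hD hd r' hr'
      exact ⟨d, hd, hdN, x, hx, hx'⟩
    · obtain ⟨y, hy, η, h2⟩ := g2 x hx ξ
      exact ⟨y, hy, η, h2⟩
    · obtain ⟨y, hy, h2⟩ := g4 x hx s (by
        rintro z hz _ _ rfl rfl
        exact hs z hz)
      exact ⟨y, hy, h2⟩

end Pool.Agent.BPF.R
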