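import Pool.Agent.Lib.MP_11349d_lc.R.Refl
import Pool.Agent.Lib.MP_11349d_lc.R.Flat

/-! # `HasExt` is definable -/

set_option autoImplicit false

namespace Pool.Agent.BPF.R

open Pool.Agent.Lib.BVM ZFSet Cardinal

/-- the fixed types -/
inductive Ix5 : Type
  | p
  | o
  | q
  | s
  | n

/-- the fixed types -/
@[reducible] def F5 (Ω T : Type) : Ix5 → Type
  | .p => T
  | .o => Ω
  | .q => Ω × Ω
  | .s => Finset (Ω × Ω)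
  | .n => ℕ

/-- codes for the elements of the fixed types -/
noncomputable def j5 (Ω T : Type) (i : Ix5) : F5 Ω T i → ZFSet.{0} := (exists_oc (F5 Ω T i)).choose

theorem j5_inj (Ω T : Type) (i : Ix5) : Function.Injective (j5 Ω T i) :=
  (exists_oc (F5 Ω T i)).choose_spec.1

theorem j5_rank (Ω T : Type) (i : Ix5) (x : F5 Ω T i) : rank (j5 Ω T i x) < (#(F5 Ω T i)).ord :=
  (exists_oc (F5 Ω T i)).choose_spec.2 x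

variable {Ω T : Type} [Preorder T]

/-- the parameters -/
noncomputable def l5 (𝒞 : Finset (Ω × Ω) → Set T) (b : T) : List ZFSet.{0} :=
  [range (j5 Ω T .p), range (j5 Ω T .o), range (j5 Ω T .q), range (j5 Ω T .s), range (j5 Ω T .n),
    rlj (j5 Ω T .p) (j5 Ω T .p) (fun x y => x ≤ y),
    rlj (j5 Ω T .p) (j5 Ω T .s) (fun x s => x ∈ 𝒞 s),
    rlj (j5 Ω T .q) (j5 Ω T .s) (fun x s => x ∈ s),
    rlj (j5 Ω T .q) (j5 Ω T .o) (fun x ξ => x.1 = ξ),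
    rlj (j5 Ω T .q) (j5 Ω T .o) (fun x ξ => x.2 = ξ),
    rlj (j5 Ω T .n) (j5 Ω T .n) (fun n m => m = n + 1),
    j5 Ω T .p b]

/-- the parameters -/
noncomputable def P5 (𝒞 : Finset (Ω × Ω) → Set T) (b : T) : Pr where
  Ix := Ix5
  F := F5 Ω T
  j := j5 Ω T
  inj := j5_inj Ω T
  l := l5 𝒞 b
  hl := by
    intro i
    cases i <;> simp [l5]

section
variable {𝒞 : Finset (Ω × Ω) → Set T} {b : T} {c : Cx (P5 𝒞 b)}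

theorem df_lep {x y : c.Γ → T} (hx : Tm c (.F Ix5.p) x) (hy : Tm c (.F Ix5.p) y) :
    Df c (fun γ => x γ ≤ y γ) := by
  have h : rlj (j5 Ω T .p) (j5 Ω T .p) (fun x y => x ≤ y) ∈ l5 𝒞 b := by simp [l5]
  exact Df.rel (c := c) (i := Ix5.p) (k := Ix5.p) h hx hy

theorem df_C {x : c.Γ → T} {s : c.Γ → Finset (Ω × Ω)} (hx : Tm c (.F Ix5.p) x)
    (hs : Tm c (.F Ix5.s) s) : Df c (fun γ => x γ ∈ 𝒞 (s γ)) := by
  have h : rlj (j5 Ω T .p) (j5 Ω T .s) (fun x s => x ∈ 𝒞 s) ∈ l5 𝒞 b := by simp [l5]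
  exact Df.rel (c := c) (i := Ix5.p) (k := Ix5.s) h hx hs

theorem df_ms {x : c.Γ → Ω × Ω} {s : c.Γ → Finset (Ω × Ω)} (hx : Tm c (.F Ix5.q) x)
    (hs : Tm c (.F Ix5.s) s) : Df c (fun γ => x γ ∈ s γ) := by
  have h : rlj (j5 Ω T .q) (j5 Ω T .s) (fun x s => x ∈ s) ∈ l5 𝒞 b := by simp [l5]
  exact Df.rel (c := c) (i := Ix5.q) (k := Ix5.s) h hx hs

theorem df_f1 {x : c.Γ → Ω × Ω} {ξ : c.Γ → Ω} (hx : Tm c (.F Ix5.q) x)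
    (hξ : Tm c (.F Ix5.o) ξ) : Df c (fun γ => (x γ).1 = ξ γ) := by
  have h : rlj (j5 Ω T .q) (j5 Ω T .o) (fun x ξ => x.1 = ξ) ∈ l5 𝒞 b := by simp [l5]
  exact Df.rel (c := c) (i := Ix5.q) (k := Ix5.o) h hx hξ

theorem df_f2 {x : c.Γ → Ω × Ω} {ξ : c.Γ → Ω} (hx : Tm c (.F Ix5.q) x)
    (hξ : Tm c (.F Ix5.o) ξ) : Df c (fun γ => (x γ).2 = ξ γ) := by
  have h : rlj (j5 Ω T .q) (j5 Ω T .o) (fun x ξ => x.2 = ξ) ∈ l5 𝒞 b := by simp [l5]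
  exact Df.rel (c := c) (i := Ix5.q) (k := Ix5.o) h hx hξ

theorem df_succ {n m : c.Γ → ℕ} (hn : Tm c (.F Ix5.n) n) (hm : Tm c (.F Ix5.n) m) :
    Df c (fun γ => m γ = n γ + 1) := by
  have h : rlj (j5 Ω T .n) (j5 Ω T .n) (fun n m => m = n + 1) ∈ l5 𝒞 b := by simp [l5]
  exact Df.rel (c := c) (i := Ix5.n) (k := Ix5.n) h hn hm

theorem tm_b : Tm c (.F Ix5.p) (fun _ => b) := by
  have h : j5 Ω T .p b ∈ l5 𝒞 b := by simp [l5]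
  exact Tm.const (c := c) (i := Ix5.p) h

/-! The clauses of `Flat` -/

theorem all_p {R : c.Γ → T → Prop} (h : Df (c.ext (.F Ix5.p)) (fun γ => R γ.1 γ.2)) :
    Df c (fun γ => ∀ x : T, R γ x) := Df.all (c := c) (.F Ix5.p) h

theorem all_o {R : c.Γ → Ω → Prop} (h : Df (c.ext (.F Ix5.o)) (fun γ => R γ.1 γ.2)) :
    Df c (fun γ => ∀ x : Ω, R γ x) := Df.all (c := c) (.F Ix5.o) h

theorem all_q {R : c.Γ → Ω × Ω → Prop} (h : Df (c.ext (.F Ix5.q)) (fun γ => R γ.1 γ.2)) :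
    Df c (fun γ => ∀ x : Ω × Ω, R γ x) := Df.all (c := c) (.F Ix5.q) h

theorem all_s {R : c.Γ → Finset (Ω × Ω) → Prop}
    (h : Df (c.ext (.F Ix5.s)) (fun γ => R γ.1 γ.2)) :
    Df c (fun γ => ∀ x : Finset (Ω × Ω), R γ x) := Df.all (c := c) (.F Ix5.s) h

theorem all_n {R : c.Γ → ℕ → Prop} (h : Df (c.ext (.F Ix5.n)) (fun γ => R γ.1 γ.2)) :
    Df c (fun γ => ∀ x : ℕ, R γ x) := Df.all (c := c) (.F Ix5.n) h

theorem ex_p {R : c.Γ → T → Prop} (h : Df (c.ext (.F Ix5.p)) (fun γ => R γ.1 γ.2)) :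
    Df c (fun γ => ∃ x : T, R γ x) := Df.ex (c := c) (.F Ix5.p) h

theorem ex_o {R : c.Γ → Ω → Prop} (h : Df (c.ext (.F Ix5.o)) (fun γ => R γ.1 γ.2)) :
    Df c (fun γ => ∃ x : Ω, R γ x) := Df.ex (c := c) (.F Ix5.o) h

theorem ex_n {R : c.Γ → ℕ → Prop} (h : Df (c.ext (.F Ix5.n)) (fun γ => R γ.1 γ.2)) :
    Df c (fun γ => ∃ x : ℕ, R γ x) := Df.ex (c := c) (.F Ix5.n) h

theorem all_A {R : ∀ γ : c.Γ, (c.b γ).A → Prop} (h : Df (c.ext .A) (fun γ => R γ.1 γ.2)) :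
    Df c (fun γ => ∀ x : (c.b γ).A, R γ x) := Df.all (c := c) .A h

theorem ex_A {R : ∀ γ : c.Γ, (c.b γ).A → Prop} (h : Df (c.ext .A) (fun γ => R γ.1 γ.2)) :
    Df c (fun γ => ∃ x : (c.b γ).A, R γ x) := Df.ex (c := c) .A h

theorem all_Sp {R : c.Γ → Set T → Prop}
    (h : Df (c.ext (.set (.F Ix5.p))) (fun γ => R γ.1 γ.2)) :
    Df c (fun γ => ∀ x : Set T, R γ x) := Df.all (c := c) (.set (.F Ix5.p)) h

theorem all_SA {R : ∀ γ : c.Γ, Set (c.b γ).A → Prop}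
    (h : Df (c.ext (.set .A)) (fun γ => R γ.1 γ.2)) :
    Df c (fun γ => ∀ x : Set (c.b γ).A, R γ x) := Df.all (c := c) (.set .A) h

theorem ex_SA {R : ∀ γ : c.Γ, Set (c.b γ).A → Prop}
    (h : Df (c.ext (.set .A)) (fun γ => R γ.1 γ.2)) :
    Df c (fun γ => ∃ x : Set (c.b γ).A, R γ x) := Df.ex (c := c) (.set .A) h

/-- the type of elements and subsets of `A` -/
abbrev U5 : Ty Ix5 := .sum .A (.set .A)

theorem all_U {R : ∀ γ : c.Γ, ((c.b γ).A ⊕ Set (c.b γ).A) → Prop}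
    (h : Df (c.ext U5) (fun γ => R γ.1 γ.2)) :
    Df c (fun γ => ∀ x : (c.b γ).A ⊕ Set (c.b γ).A, R γ x) := Df.all (c := c) U5 h

theorem all_SU {R : ∀ γ : c.Γ, Set ((c.b γ).A ⊕ Set (c.b γ).A) → Prop}
    (h : Df (c.ext (.set U5)) (fun γ => R γ.1 γ.2)) :
    Df c (fun γ => ∀ x : Set ((c.b γ).A ⊕ Set (c.b γ).A), R γ x) := Df.all (c := c) (.set U5) h

theorem ex_SU {R : ∀ γ : c.Γ, Set ((c.b γ).A ⊕ Set (c.b γ).A) → Prop}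
    (h : Df (c.ext (.set U5)) (fun γ => R γ.1 γ.2)) :
    Df c (fun γ => ∃ x : Set ((c.b γ).A ⊕ Set (c.b γ).A), R γ x) := Df.ex (c := c) (.set U5) h

theorem ex_SSU {R : ∀ γ : c.Γ, Set (Set ((c.b γ).A ⊕ Set (c.b γ).A)) → Prop}
    (h : Df (c.ext (.set (.set U5))) (fun γ => R γ.1 γ.2)) :
    Df c (fun γ => ∃ x : Set (Set ((c.b γ).A ⊕ Set (c.b γ).A)), R γ x) :=
  Df.ex (c := c) (.set (.set U5)) h

theorem ex_fUn {R : ∀ γ : c.Γ, (((c.b γ).A ⊕ Set (c.b γ).A) → ℕ) → Prop}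
    (h : Df (c.ext (.fn U5 (.F Ix5.n))) (fun γ => R γ.1 γ.2)) :
    Df c (fun γ => ∃ x : ((c.b γ).A ⊕ Set (c.b γ).A) → ℕ, R γ x) :=
  Df.ex (c := c) (.fn U5 (.F Ix5.n)) h

theorem all_fnSU {R : ∀ γ : c.Γ, (ℕ → Set ((c.b γ).A ⊕ Set (c.b γ).A)) → Prop}
    (h : Df (c.ext (.fn (.F Ix5.n) (.set U5))) (fun γ => R γ.1 γ.2)) :
    Df c (fun γ => ∀ x : ℕ → Set ((c.b γ).A ⊕ Set (c.b γ).A), R γ x) :=
  Df.all (c := c) (.fn (.F Ix5.n) (.set U5)) h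

theorem ex_fAA {R : ∀ γ : c.Γ, ((c.b γ).A → Set (c.b γ).A) → Prop}
    (h : Df (c.ext (.fn .A (.set .A))) (fun γ => R γ.1 γ.2)) :
    Df c (fun γ => ∃ x : (c.b γ).A → Set (c.b γ).A, R γ x) :=
  Df.ex (c := c) (.fn .A (.set .A)) h

theorem ex_fpA {R : ∀ γ : c.Γ, (T → (c.b γ).A) → Prop}
    (h : Df (c.ext (.fn (.F Ix5.p) .A)) (fun γ => R γ.1 γ.2)) :
    Df c (fun γ => ∃ x : T → (c.b γ).A, R γ x) :=
  Df.ex (c := c) (.fn (.F Ix5.p) .A) h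

theorem ex_fAp {R : ∀ γ : c.Γ, ((c.b γ).A → T) → Prop}
    (h : Df (c.ext (.fn .A (.F Ix5.p))) (fun γ => R γ.1 γ.2)) :
    Df c (fun γ => ∃ x : (c.b γ).A → T, R γ x) :=
  Df.ex (c := c) (.fn .A (.F Ix5.p)) h

theorem ex_g {R : ∀ γ : c.Γ, (Ω → Ω → Set (c.b γ).A) → Prop}
    (h : Df (c.ext (.fn (.F Ix5.o) (.fn (.F Ix5.o) (.set .A)))) (fun γ => R γ.1 γ.2)) :
    Df c (fun γ => ∃ x : Ω → Ω → Set (c.b γ).A, R γ x) :=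
  Df.ex (c := c) (.fn (.F Ix5.o) (.fn (.F Ix5.o) (.set .A))) h

attribute [local irreducible] Tm DT Df

theorem v0 {P : Pr} {c : Cx P} {t : Ty P.Ix} : Tm (c.ext t) t (fun γ => γ.2) := Tm.v0

theorem v1 {P : Pr} {c : Cx P} {t s : Ty P.Ix} : Tm ((c.ext t).ext s) t (fun γ => γ.1.2) :=
  Tm.wk s v0

theorem v2 {P : Pr} {c : Cx P} {t s s' : Ty P.Ix} :
    Tm (((c.ext t).ext s).ext s') t (fun γ => γ.1.1.2) := Tm.wk s' v1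

theorem v3 {P : Pr} {c : Cx P} {t s s' s'' : Ty P.Ix} :
    Tm ((((c.ext t).ext s).ext s').ext s'') t (fun γ => γ.1.1.1.2) := Tm.wk s'' v2

theorem v4 {P : Pr} {c : Cx P} {t s s' s'' r : Ty P.Ix} :
    Tm (((((c.ext t).ext s).ext s').ext s'').ext r) t (fun γ => γ.1.1.1.1.2) := Tm.wk r v3

variable {le : ∀ γ : c.Γ, (c.b γ).A → Set (c.b γ).A} {e : ∀ γ : c.Γ, T → (c.b γ).A}
  {π : ∀ γ : c.Γ, (c.b γ).A → T} {g : ∀ γ : c.Γ, Ω → Ω → Set (c.b γ).A}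

theorem df_le (hle : Tm c (.fn .A (.set .A)) le) {x y : ∀ γ : c.Γ, (c.b γ).A}
    (hx : Tm c .A x) (hy : Tm c .A y) : Df c (fun γ => y γ ∈ le γ (x γ)) :=
  Df.tmem (c := c) (t := .A) hy (Tm.app (c := c) (s := .A) (t := .set .A) hle hx)

theorem df_g (hg : Tm c (.fn (.F Ix5.o) (.fn (.F Ix5.o) (.set .A))) g)
    {ξ η : c.Γ → Ω} {x : ∀ γ : c.Γ, (c.b γ).A} (hξ : Tm c (.F Ix5.o) ξ) (hη : Tm c (.F Ix5.o) η)
    (hx : Tm c .A x) : Df c (fun γ => x γ ∈ g γ (ξ γ) (η γ)) :=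
  Df.tmem (c := c) (t := .A) hx (Tm.app (c := c) (s := .F Ix5.o) (t := .set .A)
    (Tm.app (c := c) (s := .F Ix5.o) (t := .fn (.F Ix5.o) (.set .A)) hg hξ) hη)

theorem tm_e (he : Tm c (.fn (.F Ix5.p) .A) e) {p : c.Γ → T} (hp : Tm c (.F Ix5.p) p) :
    Tm c .A (fun γ => e γ (p γ)) := Tm.app (c := c) (s := .F Ix5.p) (t := .A) he hp

theorem tm_π (hπ : Tm c (.fn .A (.F Ix5.p)) π) {x : ∀ γ : c.Γ, (c.b γ).A} (hx : Tm c .A x) :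
    Tm c (.F Ix5.p) (fun γ => π γ (x γ)) := Tm.app (c := c) (s := .A) (t := .F Ix5.p) hπ hx

theorem df_c1 (hle : Tm c (.fn .A (.set .A)) le) :
    Df c (fun γ => (∀ x, x ∈ le γ x) ∧ ∀ x y z, y ∈ le γ x → z ∈ le γ y → z ∈ le γ x) := by
  refine Df.and (all_A ?_) (all_A (all_A (all_A ?_)))
  · exact df_le (hle.wk _) v0 v0
  · have h := (((hle.wk .A).wk .A).wk .A)
    exact (df_le h v2 v1).imp ((df_le h v1 v0).imp (df_le h v2 v0))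

theorem df_c2 (hle : Tm c (.fn .A (.set .A)) le) (he : Tm c (.fn (.F Ix5.p) .A) e)
    (hπ : Tm c (.fn .A (.F Ix5.p)) π) :
    Df c (fun γ => (∀ p q : T, p ≤ q → e γ q ∈ le γ (e γ p)) ∧
      (∀ x y, y ∈ le γ x → π γ x ≤ π γ y) ∧
      (∀ p, π γ (e γ p) = p) ∧ (∀ x, e γ (π γ x) ∈ le γ x) ∧
      ∀ x p, p ≤ π γ x → ∃ y, x ∈ le γ y ∧ π γ y ≤ p) := by
  refine Df.and (all_p (all_p ?_)) (Df.and (all_A (all_A ?_))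
    (Df.and (all_p ?_) (Df.and (all_A ?_) (all_A (all_p ?_)))))
  · exact (df_lep v1 v0).imp (df_le ((hle.wk _).wk _) (tm_e ((he.wk _).wk _) v1)
      (tm_e ((he.wk _).wk _) v0))
  · exact (df_le ((hle.wk _).wk _) v1 v0).imp (df_lep (tm_π ((hπ.wk _).wk _) v1)
      (tm_π ((hπ.wk _).wk _) v0))
  · exact Df.teq (c := c.ext (.F Ix5.p)) (t := .F Ix5.p) (tm_π (hπ.wk _) (tm_e (he.wk _) v0)) v0
  · exact df_le (hle.wk _) v0 (tm_e (he.wk _) (tm_π (hπ.wk _) v0))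
  · refine (df_lep v0 (tm_π ((hπ.wk _).wk _) v1)).imp (ex_A ?_)
    exact (df_le (((hle.wk _).wk _).wk _) v0 v2).and
      (df_lep (tm_π (((hπ.wk _).wk _).wk _) v0) v1)

theorem df_inl {N : ∀ γ : c.Γ, Set ((c.b γ).A ⊕ Set (c.b γ).A)} {x : ∀ γ : c.Γ, (c.b γ).A}
    (hx : Tm c .A x) (hN : Tm c (.set U5) N) : Df c (fun γ => Sum.inl (x γ) ∈ N γ) :=
  Df.tmem (c := c) (t := U5) (Tm.inl (c := c) (s := .A) (.set .A) hx) hN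

theorem df_inr {N : ∀ γ : c.Γ, Set ((c.b γ).A ⊕ Set (c.b γ).A)} {x : ∀ γ : c.Γ, Set (c.b γ).A}
    (hx : Tm c (.set .A) x) (hN : Tm c (.set U5) N) : Df c (fun γ => Sum.inr (x γ) ∈ N γ) :=
  Df.tmem (c := c) (t := U5) (Tm.inr (c := c) .A (t := .set .A) hx) hN

theorem df_U {N : ∀ γ : c.Γ, Set ((c.b γ).A ⊕ Set (c.b γ).A)}
    {x : ∀ γ : c.Γ, (c.b γ).A ⊕ Set (c.b γ).A}
    (hx : Tm c U5 x) (hN : Tm c (.set U5) N) : Df c (fun γ => x γ ∈ N γ) :=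
  Df.tmem (c := c) (t := U5) hx hN

theorem df_SU {C : ∀ γ : c.Γ, Set (Set ((c.b γ).A ⊕ Set (c.b γ).A))}
    {x : ∀ γ : c.Γ, Set ((c.b γ).A ⊕ Set (c.b γ).A)}
    (hx : Tm c (.set U5) x) (hC : Tm c (.set (.set U5)) C) : Df c (fun γ => x γ ∈ C γ) :=
  Df.tmem (c := c) (t := .set U5) hx hC

theorem df_Sp {C : c.Γ → Set T} {x : c.Γ → T} (hx : Tm c (.F Ix5.p) x)
    (hC : Tm c (.set (.F Ix5.p)) C) : Df c (fun γ => x γ ∈ C γ) :=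
  Df.tmem (c := c) (t := .F Ix5.p) hx hC

theorem df_SA {C : ∀ γ : c.Γ, Set (c.b γ).A} {x : ∀ γ : c.Γ, (c.b γ).A} (hx : Tm c .A x)
    (hC : Tm c (.set .A) C) : Df c (fun γ => x γ ∈ C γ) :=
  Df.tmem (c := c) (t := .A) hx hC

theorem df_eqA {x y : ∀ γ : c.Γ, (c.b γ).A} (hx : Tm c .A x) (hy : Tm c .A y) :
    Df c (fun γ => x γ = y γ) := Df.teq (c := c) (t := .A) hx hy

theorem df_cnt {S : ∀ γ : c.Γ, Set ((c.b γ).A ⊕ Set (c.b γ).A)} (hS : Tm c (.set U5) S) :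
    Df c (fun γ => ∃ f : (c.b γ).A ⊕ Set (c.b γ).A → ℕ, ∀ x y, x ∈ S γ → y ∈ S γ →
      f x = f y → x = y) := by
  refine ex_fUn (all_U (all_U ?_))
  have h := (((hS.wk (.fn U5 (.F Ix5.n))).wk U5).wk U5)
  refine (df_U v1 h).imp ((df_U v0 h).imp (Df.imp ?_ ?_))
  · refine Df.teq (c := ((c.ext (.fn U5 (.F Ix5.n))).ext U5).ext U5) (t := .F Ix5.n) ?_ ?_
    · exact Tm.app (c := ((c.ext (.fn U5 (.F Ix5.n))).ext U5).ext U5) (s := U5) (t := .F Ix5.n)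
        v2 v1
    · exact Tm.app (c := ((c.ext (.fn U5 (.F Ix5.n))).ext U5).ext U5) (s := U5) (t := .F Ix5.n)
        v2 v0
  · exact Df.teq (c := ((c.ext (.fn U5 (.F Ix5.n))).ext U5).ext U5) (t := U5) v1 v0

theorem df_club {C : ∀ γ : c.Γ, Set (Set ((c.b γ).A ⊕ Set (c.b γ).A))}
    (hC : Tm c (.set (.set U5)) C) :
    Df c (fun γ => (∀ d, d ∈ C γ → ∃ f : (c.b γ).A ⊕ Set (c.b γ).A → ℕ, ∀ x y, x ∈ d →
        y ∈ d → f x = f y → x = y) ∧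
      (∀ x : Set ((c.b γ).A ⊕ Set (c.b γ).A), (∃ f : (c.b γ).A ⊕ Set (c.b γ).A → ℕ,
        ∀ u v, u ∈ x → v ∈ x → f u = f v → u = v) → ∃ d, d ∈ C γ ∧ ∀ u, u ∈ x → u ∈ d) ∧
      ∀ d : ℕ → Set ((c.b γ).A ⊕ Set (c.b γ).A), (∀ n, d n ∈ C γ) →
        (∀ n m, m = n + 1 → ∀ u, u ∈ d n → u ∈ d m) →
          ∃ v : Set ((c.b γ).A ⊕ Set (c.b γ).A), (∀ u, u ∈ v ↔ ∃ n, u ∈ d n) ∧ v ∈ C γ) := by
  refine Df.and (all_SU ?_) (Df.and (all_SU ?_) (all_fnSU ?_))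
  · exact (df_SU v0 (hC.wk _)).imp (df_cnt v0)
  · refine (df_cnt v0).imp (ex_SU (Df.and (df_SU v0 ((hC.wk _).wk _)) (all_U ?_)))
    exact (df_U v0 v2).imp (df_U v0 v1)
  · refine Df.imp (all_n ?_) (Df.imp (all_n (all_n ?_)) (ex_SU (Df.and (all_U ?_) ?_)))
    · exact df_SU (Tm.app (c := (c.ext (.fn (.F Ix5.n) (.set U5))).ext (.F Ix5.n))
        (s := .F Ix5.n) (t := .set U5) v1 v0) ((hC.wk _).wk _)
    · refine (df_succ v1 v0).imp (all_U ?_)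
      refine Df.imp (df_U v0 ?_) (df_U v0 ?_)
      · exact Tm.app (c := (((c.ext (.fn (.F Ix5.n) (.set U5))).ext (.F Ix5.n)).ext
          (.F Ix5.n)).ext U5) (s := .F Ix5.n) (t := .set U5) v3 v2
      · exact Tm.app (c := (((c.ext (.fn (.F Ix5.n) (.set U5))).ext (.F Ix5.n)).ext
          (.F Ix5.n)).ext U5) (s := .F Ix5.n) (t := .set U5) v3 v1
    · refine Df.iff (df_U v0 v1) (ex_n (df_U v1 ?_))
      exact Tm.app (c := (((c.ext (.fn (.F Ix5.n) (.set U5))).ext (.set U5)).ext U5).ext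
          (.F Ix5.n)) (s := .F Ix5.n) (t := .set U5) v3 v0
    · exact df_SU v0 ((hC.wk _).wk _)

theorem df_GB (he : Tm c (.fn (.F Ix5.p) .A) e)
    {N : ∀ γ : c.Γ, Set ((c.b γ).A ⊕ Set (c.b γ).A)} (hN : Tm c (.set U5) N)
    {q : c.Γ → T} (hq : Tm c (.F Ix5.p) q) :
    Df c (fun γ => ∀ D : Set T, (∃ D' : Set (c.b γ).A, (∀ x, x ∈ D' ↔ ∃ d, d ∈ D ∧ e γ d = x) ∧
        Sum.inr D' ∈ N γ) → (∀ p', ∃ d, d ∈ D ∧ d ≤ p') → ∀ q', q' ≤ q γ →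
        ∃ d, d ∈ D ∧ Sum.inl (e γ d) ∈ N γ ∧ ∃ x, x ≤ d ∧ x ≤ q') := by
  refine all_Sp (Df.imp (ex_SA (Df.and (all_A ?_) ?_)) (Df.imp (all_p (ex_p ?_)) (all_p ?_)))
  · refine Df.iff (df_SA v0 v1) (ex_p (Df.and (df_Sp v0 v3) ?_))
    exact df_eqA (tm_e ((((he.wk _).wk _).wk _).wk _) v0) v1
  · exact df_inr v0 ((hN.wk _).wk _)
  · exact (df_Sp v0 v2).and (df_lep v0 v1)
  · refine (df_lep v0 ((hq.wk _).wk _)).imp (ex_p (Df.and (df_Sp v0 v2) (Df.and ?_ (ex_p ?_))))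
    · exact df_inl (tm_e (((he.wk _).wk _).wk _) v0) (((hN.wk _).wk _).wk _)
    · exact (df_lep v0 v1).and (df_lep v0 v2)

theorem df_GA (hle : Tm c (.fn .A (.set .A)) le)
    {N : ∀ γ : c.Γ, Set ((c.b γ).A ⊕ Set (c.b γ).A)} (hN : Tm c (.set U5) N)
    {r : ∀ γ : c.Γ, (c.b γ).A} (hr : Tm c .A r) :
    Df c (fun γ => ∀ D : Set (c.b γ).A, Sum.inr D ∈ N γ → (∀ x, ∃ d, d ∈ D ∧ x ∈ le γ d) →
      ∀ r', r γ ∈ le γ r' → ∃ d, d ∈ D ∧ Sum.inl d ∈ N γ ∧ ∃ x, d ∈ le γ x ∧ r' ∈ le γ x) := by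
  refine all_SA (Df.imp (df_inr v0 (hN.wk _)) (Df.imp (all_A (ex_A ?_)) (all_A ?_)))
  · exact (df_SA v0 v2).and (df_le (((hle.wk _).wk _).wk _) v0 v1)
  · refine (df_le ((hle.wk _).wk _) v0 ((hr.wk _).wk _)).imp
      (ex_A (Df.and (df_SA v0 v2) (Df.and ?_ (ex_A ?_))))
    · exact df_inl v0 (((hN.wk _).wk _).wk _)
    · have h := ((((hle.wk (.set .A)).wk .A).wk .A).wk .A)
      exact (df_le h v0 v1).and (df_le h v0 v2)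

theorem df_rp (hle : Tm c (.fn .A (.set .A)) le) (he : Tm c (.fn (.F Ix5.p) .A) e)
    (hπ : Tm c (.fn .A (.F Ix5.p)) π) :
    Df c (fun γ => ∃ C : Set (Set ((c.b γ).A ⊕ Set (c.b γ).A)),
      ((∀ d, d ∈ C → ∃ f : (c.b γ).A ⊕ Set (c.b γ).A → ℕ, ∀ x y, x ∈ d →
        y ∈ d → f x = f y → x = y) ∧
      (∀ x : Set ((c.b γ).A ⊕ Set (c.b γ).A), (∃ f : (c.b γ).A ⊕ Set (c.b γ).A → ℕ,
        ∀ u v, u ∈ x → v ∈ x → f u = f v → u = v) → ∃ d, d ∈ C ∧ ∀ u, u ∈ x → u ∈ d) ∧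
      ∀ d : ℕ → Set ((c.b γ).A ⊕ Set (c.b γ).A), (∀ n, d n ∈ C) →
        (∀ n m, m = n + 1 → ∀ u, u ∈ d n → u ∈ d m) →
          ∃ v : Set ((c.b γ).A ⊕ Set (c.b γ).A), (∀ u, u ∈ v ↔ ∃ n, u ∈ d n) ∧ v ∈ C) ∧
      ∀ N, N ∈ C → ∀ p : (c.b γ).A, Sum.inl p ∈ N → ∀ q, q ≤ π γ p →
        (∀ D : Set T, (∃ D' : Set (c.b γ).A, (∀ x, x ∈ D' ↔ ∃ d, d ∈ D ∧ e γ d = x) ∧
            Sum.inr D' ∈ N) → (∀ p', ∃ d, d ∈ D ∧ d ≤ p') → ∀ q', q' ≤ q →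
          ∃ d, d ∈ D ∧ Sum.inl (e γ d) ∈ N ∧ ∃ x, x ≤ d ∧ x ≤ q') →
        ∃ r, p ∈ le γ r ∧ π γ r ≤ q ∧
          ∀ D : Set (c.b γ).A, Sum.inr D ∈ N → (∀ x, ∃ d, d ∈ D ∧ x ∈ le γ d) →
            ∀ r', r ∈ le γ r' → ∃ d, d ∈ D ∧ Sum.inl d ∈ N ∧ ∃ x, d ∈ le γ x ∧ r' ∈ le γ x) := by
  refine ex_SSU (Df.and (df_club v0) (all_SU (Df.imp (df_SU v0 v1) (all_A
    (Df.imp (df_inl v0 v1) (all_p (Df.imp (df_lep v0 ?_) (Df.imp ?_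
      (ex_A (Df.and ?_ (Df.and ?_ ?_)))))))))))
  · exact tm_π ((((hπ.wk _).wk _).wk _).wk _) v1
  · exact df_GB ((((he.wk _).wk _).wk _).wk _) v2 v0
  · exact df_le (((((hle.wk _).wk _).wk _).wk _).wk _) v0 v2
  · exact df_lep (tm_π (((((hπ.wk _).wk _).wk _).wk _).wk _) v0) v1
  · exact df_GA (((((hle.wk _).wk _).wk _).wk _).wk _) v3 v0

theorem df_re (hle : Tm c (.fn .A (.set .A)) le) (he : Tm c (.fn (.F Ix5.p) .A) e)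
    (hπ : Tm c (.fn .A (.F Ix5.p)) π)
    (hg : Tm c (.fn (.F Ix5.o) (.fn (.F Ix5.o) (.set .A))) g) :
    Df c (fun γ => (∀ ξ η x y, x ∈ le γ y → x ∈ g γ ξ η → y ∈ g γ ξ η) ∧
    (∀ x, e γ b ∈ le γ x → ∀ ξ, ∃ y, x ∈ le γ y ∧ ∃ η, y ∈ g γ ξ η) ∧
    (∀ x, e γ b ∈ le γ x → ∀ ξ η η', x ∈ g γ ξ η → x ∈ g γ ξ η' → η = η') ∧
    ∀ x, e γ b ∈ le γ x → ∀ s : Finset (Ω × Ω),
      (∀ z : Ω × Ω, z ∈ s → ∀ ξ η, z.1 = ξ → z.2 = η → x ∈ g γ ξ η) →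
      ∃ y, x ∈ le γ y ∧ π γ y ∈ 𝒞 s) := by
  have hb : Df (c.ext .A) (fun γ => e γ.1 b ∈ le γ.1 γ.2) :=
    df_le (hle.wk _) v0 (tm_e (he.wk _) tm_b)
  refine Df.and (all_o (all_o (all_A (all_A ?_)))) (Df.and (all_A (Df.imp hb (all_o (ex_A ?_))))
    (Df.and (all_A (Df.imp hb (all_o (all_o (all_o ?_))))) (all_A (Df.imp hb (all_s ?_)))))
  · have h := ((((hg.wk (.F Ix5.o)).wk (.F Ix5.o)).wk .A).wk .A)
    exact (df_le ((((hle.wk _).wk _).wk _).wk _) v0 v1).imp ((df_g h v3 v2 v1).imp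
      (df_g h v3 v2 v0))
  · refine (df_le (((hle.wk _).wk _).wk _) v0 v2).and (ex_o ?_)
    exact df_g ((((hg.wk _).wk _).wk _).wk _) v2 v0 v1
  · have h := ((((hg.wk .A).wk (.F Ix5.o)).wk (.F Ix5.o)).wk (.F Ix5.o))
    exact (df_g h v2 v1 v3).imp ((df_g h v2 v0 v3).imp
      (Df.teq (c := (((c.ext .A).ext (.F Ix5.o)).ext (.F Ix5.o)).ext (.F Ix5.o))
        (t := .F Ix5.o) v1 v0))
  · refine Df.imp (all_q (Df.imp (df_ms v0 v1) (all_o (all_o (Df.imp (df_f1 v2 v1)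
      (Df.imp (df_f2 v2 v0) ?_)))))) (ex_A ?_)
    · exact df_g (((((hg.wk _).wk _).wk _).wk _).wk _) v1 v0 v4
    · exact (df_le (((hle.wk _).wk _).wk _) v0 v2).and
        (df_C (tm_π (((hπ.wk _).wk _).wk _) v0) v1)

end

theorem df_flat (𝒞 : Finset (Ω × Ω) → Set T) (b : T) :
    Df (c0 (P5 𝒞 b)) (fun G => Flat 𝒞 b (G : Bs (P5 𝒞 b)).A) := by
  refine ex_fAA (c := c0 (P5 𝒞 b)) (ex_fpA (ex_fAp (ex_g (Df.and ?_ (Df.and ?_ (Df.and ?_ ?_))))))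
  · exact df_c1 (Tm.wk _ (Tm.wk _ (Tm.wk _ Tm.v0)))
  · exact df_c2 (Tm.wk _ (Tm.wk _ (Tm.wk _ Tm.v0))) (Tm.wk _ (Tm.wk _ Tm.v0)) (Tm.wk _ Tm.v0)
  · exact df_rp (Tm.wk _ (Tm.wk _ (Tm.wk _ Tm.v0))) (Tm.wk _ (Tm.wk _ Tm.v0)) (Tm.wk _ Tm.v0)
  · exact df_re (Tm.wk _ (Tm.wk _ (Tm.wk _ Tm.v0))) (Tm.wk _ (Tm.wk _ Tm.v0)) (Tm.wk _ Tm.v0)
      Tm.v0

end Pool.Agent.BPF.R
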