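import Pool.Agent.Lib.MP_11349d_lc.R.Ext

/-! # Part R: a reflecting cardinal has the properties `RProp` -/

set_option autoImplicit false

namespace Pool.Agent.BPF

open ZFSet Cardinal R

theorem rlj_mem {κ : Cardinal.{0}} (h : Reflecting κ) {A B : Type} {f : A → ZFSet.{0}}
    {g : B → ZFSet.{0}} {δ δ' : Ordinal.{0}} (hδ : δ < κ.ord) (hδ' : δ' < κ.ord)
    (hf : ∀ x, rank (f x) < δ) (hg : ∀ x, rank (g x) < δ') (Q : A → B → Prop) :
    rlj f g Q ∈ V_ κ.ord := by
  unfold rlj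
  refine range_mem (δ := max δ δ' + 1 + 1) (lim_ord h _ (lim_ord h _ (max_lt hδ hδ'))) fun p => ?_
  exact rank_pr _ _ _ ((hf _).trans_le (le_max_left _ _)) ((hg _).trans_le (le_max_right _ _))

theorem F5_lt {κ : Cardinal.{0}} (h : Reflecting κ) {Ω T : Type} (hΩ : #Ω < κ) (hT : #T < κ)
    (i : Ix5) : #(F5 Ω T i) < κ := by
  have hq : #(Ω × Ω) < κ := by
    rw [mk_prod, lift_id]
    exact mul_lt_of_lt h.uncountable.le hΩ hΩ
  cases i with
  | p => exact hT
  | o => exact hΩ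
  | q => exact hq
  | s =>
    show #(Finset (Ω × Ω)) < κ
    refine lt_of_le_of_lt ?_ (pow_lt h _ hq)
    rw [← mk_set]
    exact mk_le_of_injective (f := fun s : Finset (Ω × Ω) => (s : Set (Ω × Ω)))
      Finset.coe_injective
  | n =>
    show #ℕ < κ
    rw [mk_nat]
    exact h.uncountable

theorem partR {κ : Cardinal.{0}} (h : Reflecting κ) : RProp κ where
  reg := h.regular
  pow := pow_lt h
  om1 := by
    refine lt_of_le_of_lt ?_ (pow_lt h ℵ₀ h.uncountable)
    rw [two_power_aleph0]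
    exact aleph_one_le_continuum
  refl := by
    rintro Ω T _ 𝒞 b hΩ hT ⟨A, hA⟩
    have hF : ∀ i, (#(F5 Ω T i)).ord < κ.ord := fun i => ord_lt_ord.2 (F5_lt h hΩ hT i)
    have hl : ∀ x ∈ (P5 𝒞 b).l, x ∈ V_ κ.ord := by
      intro x hx
      have hr : ∀ i, range (j5 Ω T i) ∈ V_ κ.ord := fun i => range_mem (hF i) (j5_rank Ω T i)
      have hR : ∀ i k (Q : F5 Ω T i → F5 Ω T k → Prop), rlj (j5 Ω T i) (j5 Ω T k) Q ∈ V_ κ.ord :=
        fun i k Q => rlj_mem h (hF i) (hF k) (j5_rank Ω T i) (j5_rank Ω T k) Q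
      have hb : j5 Ω T .p b ∈ V_ κ.ord :=
        mem_vonNeumann.2 ((j5_rank Ω T .p b).trans (hF .p))
      have hx' : x ∈ l5 𝒞 b := hx
      unfold l5 at hx'
      simp only [List.mem_cons, List.not_mem_nil, or_false] at hx'
      rcases hx' with rfl | rfl | rfl | rfl | rfl | rfl | rfl | rfl | rfl | rfl | rfl | rfl
      · exact hr _
      · exact hr _
      · exact hr _
      · exact hr _
      · exact hr _
      · exact hR .p .p _
      · exact hR .p .s _
      · exact hR .q .s _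
      · exact hR .q .o _
      · exact hR .q .o _
      · exact hR .n .n _
      · exact hb
    obtain ⟨ι, hι, -⟩ := exists_oc A
    obtain ⟨G, hG, hQ⟩ := reflect_df h hl (df_flat 𝒞 b) (G := mkBs (P5 𝒞 b) hι)
      ((flat_iff 𝒞 b A).1 hA)
    exact ⟨G.A, mk_lt h G hG, (flat_iff 𝒞 b G.A).2 hQ⟩

end Pool.Agent.BPF
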