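import Pool.Agent.Lib.MP_11349d_lc.R.Tm

/-! # Reflection of definable predicates -/

set_option autoImplicit false

namespace Pool.Agent.BPF.R

open Pool.Agent.Lib.BVM ZFSet Cardinal

/-- the base context -/
noncomputable def c0 (P : Pr) : Cx P where
  Γ := Bs P
  b G := G
  v G := scons ⟨range G.ι, G.Zβ⟩ (fun _ => ⟨cl P.l, G.ha⟩)
  hZ := ⟨0, fun _ => rfl⟩
  ha := ⟨1, fun _ => rfl⟩

variable {κ : Cardinal.{0}}

theorem lim_ord (h : Reflecting κ) (δ : Ordinal.{0}) (hδ : δ < κ.ord) : δ + 1 < κ.ord := by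
  have h1 := (isSuccLimit_ord h.uncountable.le).succ_lt hδ
  rwa [Order.succ_eq_add_one] at h1

theorem cl_mem (h : Reflecting κ) : ∀ {l : List ZFSet.{0}}, (∀ x ∈ l, x ∈ V_ κ.ord) →
    cl l ∈ V_ κ.ord
  | [], _ => by
    show (∅ : ZFSet.{0}) ∈ V_ κ.ord
    rw [mem_vonNeumann, rank_empty]
    have := h.uncountable
    exact lt_of_lt_of_le (by simp) (ord_le_ord.2 this.le)
  | x :: l, hl => by
    have h1 := mem_vonNeumann.1 (hl x (by simp))
    have h2 := mem_vonNeumann.1 (cl_mem h (l := l) fun y hy => hl y (by simp [hy]))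
    show pair x (cl l) ∈ V_ κ.ord
    rw [mem_vonNeumann]
    have h3 := lim_ord h _ (max_lt h1 h2)
    have h4 : rank (pair x (cl l)) < max (rank x) (rank (cl l)) + 1 + 1 + 1 :=
      rank_pr x (cl l) _ (Order.lt_add_one_iff.2 (le_max_left _ _))
        (Order.lt_add_one_iff.2 (le_max_right _ _))
    exact h4.trans (lim_ord h _ (lim_ord h _ h3))

/-- reflection -/
theorem reflect_df (h : Reflecting κ) {P : Pr} (hl : ∀ x ∈ P.l, x ∈ V_ κ.ord)
    {Q : Bs P → Prop} (hQ : Df (c0 P) Q) {G : Bs P} (hG : Q G) :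
    ∃ G' : Bs P, G'.β < κ.ord ∧ Q G' := by
  obtain ⟨φ, hφ⟩ := hQ
  obtain ⟨β, hβ, hβ', h1, h2⟩ := h.reflect (.and (.ex φ) (.all (.ex (.mem 1 0)))) (cl P.l)
    (cl_mem h hl) ⟨G.β, G.ha, by
      constructor
      · exact ⟨⟨range G.ι, G.Zβ⟩, (hφ G).2 hG⟩
      · intro x
        exact ⟨⟨{x.1}, G.singleton_mem x.2⟩, ZFSet.mem_singleton.2 rfl⟩⟩
  obtain ⟨z, hz⟩ := h1
  have hr : range (fun x : Shrink.{0} z.1 => ((equivShrink z.1).symm x).1) = z.1 := by
    refine ZFSet.ext fun y => ?_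
    rw [mem_range]
    constructor
    · rintro ⟨x, rfl⟩
      exact ((equivShrink z.1).symm x).2
    · intro hy
      refine ⟨equivShrink z.1 ⟨y, hy⟩, ?_⟩
      simp
  let G' : Bs P := {
    β := β
    lim := by
      intro δ hδ
      have hδ' : δ.toZFSet ∈ V_ β := by
        rw [mem_vonNeumann, Ordinal.rank_toZFSet]
        exact hδ
      obtain ⟨y, hy⟩ := h2 ⟨δ.toZFSet, hδ'⟩
      have hy1 : δ.toZFSet ∈ y.1 := hy
      have h3 := rank_lt_of_mem hy1
      rw [Ordinal.rank_toZFSet] at h3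
      exact lt_of_le_of_lt (Order.add_one_le_of_lt h3) (mem_vonNeumann.1 y.2)
    ha := hβ'
    A := Shrink.{0} z.1
    ι := fun x => ((equivShrink z.1).symm x).1
    inj := fun x y hxy => (equivShrink z.1).symm.injective (Subtype.ext hxy)
    Zβ := by
      rw [hr]
      exact z.2 }
  refine ⟨G', hβ, (hφ G').1 ?_⟩
  have hv : (c0 P).v G' = scons z (fun _ => ⟨cl P.l, hβ'⟩) := by
    funext n
    cases n
    · exact Subtype.ext hr
    · rfl
  show sat (memV β) φ ((c0 P).v G')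
  rw [hv]
  exact hz

/-- codes of the elements of a type by ordinals -/
theorem exists_oc (T : Type) : ∃ oc : T → ZFSet.{0}, Function.Injective oc ∧
    ∀ x, rank (oc x) < (#T).ord := by
  obtain ⟨r, wo, hr⟩ := Cardinal.exists_ord_eq T
  refine ⟨fun x => (Ordinal.typein r x).toZFSet, ?_, ?_⟩
  · intro x y h
    exact Ordinal.typein_injective r (Ordinal.toZFSet_injective h)
  · intro x
    rw [Ordinal.rank_toZFSet, hr]
    exact Ordinal.typein_lt_type r x

theorem range_mem {T : Type} {f : T → ZFSet.{0}} {δ : Ordinal.{0}}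
    (hδ : δ < κ.ord) (hf : ∀ x, rank (f x) < δ) : range f ∈ V_ κ.ord := by
  rw [mem_vonNeumann]
  refine lt_of_le_of_lt (rank_le_iff.2 ?_) hδ
  intro y hy
  obtain ⟨x, rfl⟩ := mem_range.1 hy
  exact hf x

/-- there are arbitrarily large limit ordinals -/
theorem exists_lim (o : Ordinal.{0}) : ∃ β, o < β ∧ ∀ δ < β, δ + 1 < β := by
  refine ⟨o + Ordinal.omega0, ?_, ?_⟩
  · exact lt_add_of_pos_right o Ordinal.omega0_pos
  · intro δ hδ
    have h1 : Order.IsSuccLimit (o + Ordinal.omega0) :=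
      Ordinal.isSuccLimit_add o Ordinal.isSuccLimit_omega0
    have h2 := h1.succ_lt hδ
    rwa [Order.succ_eq_add_one] at h2

/-- the base structure of a type `A` -/
noncomputable def mkBs (P : Pr) {A : Type} {ι : A → ZFSet.{0}} (hι : Function.Injective ι) :
    Bs P where
  β := (exists_lim (max (rank (cl P.l)) (rank (range ι)))).choose
  lim := (exists_lim (max (rank (cl P.l)) (rank (range ι)))).choose_spec.2
  ha := mem_vonNeumann.2 ((le_max_left _ _).trans_lt
    (exists_lim (max (rank (cl P.l)) (rank (range ι)))).choose_spec.1)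
  A := A
  ι := ι
  inj := hι
  Zβ := mem_vonNeumann.2 ((le_max_right _ _).trans_lt
    (exists_lim (max (rank (cl P.l)) (rank (range ι)))).choose_spec.1)

theorem mk_le_card {P : Pr} (G : Bs P) : #G.A ≤ card (range G.ι) := by
  refine Cardinal.mk_le_of_injective (f := fun x : G.A =>
    equivShrink (range G.ι) ⟨G.ι x, mem_range.2 ⟨x, rfl⟩⟩) ?_
  intro x y h
  exact G.inj (congrArg Subtype.val ((equivShrink (range G.ι)).injective h))

/-- power sets of sets of cardinality `< κ` -/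
theorem pow_lt (h : Reflecting κ) (c : Cardinal.{0}) (hc : c < κ) : (2 : Cardinal.{0}) ^ c < κ := by
  induction c using Cardinal.inductionOn with
  | _ T =>
  obtain ⟨j, hj, hjr⟩ := exists_oc T
  let P : Pr := {
    Ix := Unit
    F := fun _ => T
    j := fun _ => j
    inj := fun _ => hj
    l := [range j]
    hl := fun _ => by simp }
  have hl : ∀ x ∈ P.l, x ∈ V_ κ.ord := by
    intro x hx
    have hx' : x = range j := by simpa [P] using hx
    rw [hx']
    exact range_mem (ord_lt_ord.2 hc) hjr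
  let Q : Bs P → Prop := fun G => ((∀ y ∈ range G.ι, ∀ z ∈ y, z ∈ range G.ι) ∧
    ∀ y ∈ range G.ι, ∀ z ∈ y, ∀ w ∈ z, w ∈ y) ∧
    ∃ f : Set T → G.A, ∀ S S' : Set T, f S = f S' → S = S'
  have hQ : Df (c0 P) Q := by
    have h1 : Df (c0 P) (fun G => ∀ y ∈ range G.ι, ∀ z ∈ y, z ∈ range G.ι) := by
      refine Df.allM (c := c0 P) (R := fun G y => ∀ z ∈ y, z ∈ range G.ι) DT.Z ?_
      refine Df.allM (c := (c0 P).extV) (R := fun G z => z ∈ range G.1.ι) DT.zV ?_
      exact Df.mem DT.zV DT.Z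
    have h2 : Df (c0 P) (fun G => ∀ y ∈ range G.ι, ∀ z ∈ y, ∀ w ∈ z, w ∈ y) := by
      refine Df.allM (c := c0 P) (R := fun G y => ∀ z ∈ y, ∀ w ∈ z, w ∈ y) DT.Z ?_
      refine Df.allM (c := (c0 P).extV) (R := fun G z => ∀ w ∈ z, w ∈ G.2.1) DT.zV ?_
      refine Df.allM (c := (c0 P).extV.extV) (R := fun G w => w ∈ G.1.2.1) DT.zV ?_
      exact Df.mem DT.zV DT.zV.wkV.wkV
    have h3 : Df (c0 P) (fun G => ∃ f : Set T → G.A, ∀ S S' : Set T, f S = f S' → S = S') := by
      refine Df.ex (.fn (.set (.F ())) .A) ?_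
      refine Df.all (.set (.F ())) ?_
      refine Df.all (.set (.F ())) ?_
      refine Df.imp ?_ ?_
      · refine Df.teq (t := .A) ?_ ?_
        · exact Tm.app (Tm.wk _ (Tm.wk _ Tm.v0)) (Tm.wk _ Tm.v0)
        · exact Tm.app (Tm.wk _ (Tm.wk _ Tm.v0)) Tm.v0
      · exact Df.teq (Tm.wk _ Tm.v0) Tm.v0
    exact (h1.and h2).and h3
  obtain ⟨r, wo, hr⟩ := Cardinal.exists_ord_eq (Set T)
  have hι : Function.Injective fun x : Set T => (Ordinal.typein r x).toZFSet := fun x y hxy =>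
    Ordinal.typein_injective r (Ordinal.toZFSet_injective hxy)
  have hrg : range (fun x : Set T => (Ordinal.typein r x).toZFSet) =
      (Ordinal.type r).toZFSet := by
    refine ZFSet.ext fun z => ?_
    rw [mem_range, Ordinal.mem_toZFSet_iff]
    constructor
    · rintro ⟨x, rfl⟩
      exact ⟨_, Ordinal.typein_lt_type r x, rfl⟩
    · rintro ⟨a, ha, rfl⟩
      obtain ⟨x, hx⟩ := Ordinal.typein_surj r ha
      exact ⟨x, by rw [hx]⟩
  have hG : Q (mkBs P hι) := by
    have ho : (range (mkBs P hι).ι).IsOrdinal := by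
      show (range (fun x : Set T => (Ordinal.typein r x).toZFSet)).IsOrdinal
      rw [hrg]
      exact isOrdinal_toZFSet _
    obtain ⟨h1, h2⟩ := isOrdinal_iff_forall_mem_isTransitive.1 ho
    exact ⟨⟨fun y hy z hz => h1 y hy hz, fun y hy z hz w hw => h2 y hy z hz hw⟩, id,
      fun S S' h => h⟩
  obtain ⟨G, hβ, ⟨⟨h1, h2⟩, f, hf⟩⟩ := reflect_df h hl hQ hG
  have ho : (range G.ι).IsOrdinal := isOrdinal_iff_forall_mem_isTransitive.2
    ⟨fun y hy z hz => h1 y hy z hz, fun y hy z hz w hw => h2 y hy z hz w hw⟩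
  have h3 : card (range G.ι) < κ := by
    rw [← ho.toZFSet_rank_eq, Ordinal.card_toZFSet]
    exact Cardinal.lt_ord.1 ((mem_vonNeumann.1 G.Zβ).trans hβ)
  refine lt_of_le_of_lt ?_ ((mk_le_card G).trans_lt h3)
  rw [← Cardinal.mk_set]
  exact Cardinal.mk_le_of_injective (f := f) fun S S' h => hf S S' h

theorem inacc (h : Reflecting κ) : IsInaccessible κ where
  aleph0_lt := h.uncountable
  le_cof_ord := h.regular.2
  isStrongPrelimit := fun c hc => pow_lt h c hc

theorem mk_lt (h : Reflecting κ) {P : Pr} (G : Bs P) (hG : G.β < κ.ord) : #G.A < κ := by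
  refine (mk_le_card G).trans_lt ?_
  have h1 : range G.ι ⊆ V_ G.β := (isTransitive_vonNeumann _).subset_of_mem G.Zβ
  refine (card_mono h1).trans_lt ?_
  rw [card_vonNeumann]
  have h2 := preBeth_strictMono hG
  rwa [(inacc h).preBeth_ord] at h2

end Pool.Agent.BPF.R
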