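import Pool.Agent.Lib.MP_11349d_lc.R.Df

/-! # Typed terms and quantifiers -/

set_option autoImplicit false

namespace Pool.Agent.BPF.R

open Pool.Agent.Lib.BVM ZFSet

variable {P : Pr}

theorem empty_ne : (∅ : ZFSet.{0}) ≠ {∅} := by
  intro h
  have h1 : (∅ : ZFSet.{0}) ∈ ({∅} : ZFSet.{0}) := ZFSet.mem_singleton.2 rfl
  rw [← h] at h1
  exact ZFSet.notMem_empty _ h1

theorem mem_code_set (G : Bs P) (t : Ty P.Ix) (S : Set (den P G.A t)) (z : ZFSet.{0}) :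
    z ∈ code G (.set t) S ↔ ∃ x ∈ S, code G t x = z := by
  refine Iff.trans (mem_range (f := fun x : {x : den P G.A t // x ∈ S} => code G t x.1)) ?_
  constructor
  · rintro ⟨x, rfl⟩
    exact ⟨x.1, x.2, rfl⟩
  · rintro ⟨x, hx, rfl⟩
    exact ⟨⟨x, hx⟩, rfl⟩

theorem mem_code_fn (G : Bs P) (s t : Ty P.Ix) (f : den P G.A s → den P G.A t) (z : ZFSet.{0}) :
    z ∈ code G (.fn s t) f ↔ ∃ x, pair (code G s x) (code G t (f x)) = z :=
  mem_range (f := fun x : den P G.A s => pair (code G s x) (code G t (f x)))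

theorem code_inj (G : Bs P) : ∀ (t : Ty P.Ix) (x y : den P G.A t), code G t x = code G t y → x = y
  | .A, x, y, h => G.inj h
  | .F i, x, y, h => P.inj i h
  | .set t, S, S', h => by
    have key : ∀ (S S' : Set (den P G.A t)), code G (.set t) S = code G (.set t) S' → S ⊆ S' := by
      intro S S' h x hx
      have h1 : code G t x ∈ code G (.set t) S := (mem_code_set G t S _).2 ⟨x, hx, rfl⟩
      rw [h] at h1
      obtain ⟨y, hy, h2⟩ := (mem_code_set G t S' _).1 h1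
      rw [← code_inj G t _ _ h2]
      exact hy
    exact Set.Subset.antisymm (key S S' h) (key S' S h.symm)
  | .fn s t, f, g, h => by
    funext x
    have h1 : pair (code G s x) (code G t (f x)) ∈ code G (.fn s t) f :=
      (mem_code_fn G s t f _).2 ⟨x, rfl⟩
    rw [h] at h1
    obtain ⟨y, h2⟩ := (mem_code_fn G s t g _).1 h1
    obtain ⟨h3, h4⟩ := pair_inj.1 h2
    have h5 := code_inj G s _ _ h3
    subst h5
    exact (code_inj G t _ _ h4).symm
  | .sum s t, x, y, h => by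
    rcases x with x | x <;> rcases y with y | y
    · exact congrArg Sum.inl (code_inj G s _ _ (pair_inj.1 h).2)
    · exact absurd (pair_inj.1 h).1 empty_ne
    · exact absurd (pair_inj.1 h).1.symm empty_ne
    · exact congrArg Sum.inr (code_inj G t _ _ (pair_inj.1 h).2)

theorem code_mem_set (G : Bs P) (t : Ty P.Ix) (S : Set (den P G.A t)) (x : den P G.A t) :
    code G t x ∈ code G (.set t) S ↔ x ∈ S := by
  rw [mem_code_set]
  constructor
  · rintro ⟨y, hy, h⟩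
    rwa [← code_inj G t _ _ h]
  · intro h
    exact ⟨x, h, rfl⟩

theorem pair_mem_fn (G : Bs P) (s t : Ty P.Ix) (f : den P G.A s → den P G.A t) (x : den P G.A s)
    (z : ZFSet.{0}) : pair (code G s x) z ∈ code G (.fn s t) f ↔ z = code G t (f x) := by
  rw [mem_code_fn]
  constructor
  · rintro ⟨y, h⟩
    obtain ⟨h1, h2⟩ := pair_inj.1 h
    rw [← h2, code_inj G s _ _ h1]
  · rintro rfl
    exact ⟨x, rfl⟩

/-- the codes of the elements of `t` are definable -/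
theorem Df.rng : ∀ (t : Ty P.Ix) {c : Cx P} {u : c.Γ → ZFSet.{0}}, DT c u →
    Df c (fun γ => ∃ x : den P (c.b γ).A t, code (c.b γ) t x = u γ)
  | .A, c, u, hu => (Df.mem hu DT.Z).congr fun γ => mem_range
  | .F i, c, u, hu => (Df.mem hu (DT.l (P.hl i))).congr fun γ => mem_range
  | .set t, c, u, hu => by
    have h := Df.rng t (c := c.extV) DT.zV
    refine (Df.allM (R := fun γ z => ∃ x : den P (c.b γ).A t, code (c.b γ) t x = z) hu h).congr
      fun γ => ?_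
    constructor
    · intro h'
      refine ⟨({x : den P (c.b γ).A t | code (c.b γ) t x ∈ u γ} : Set (den P (c.b γ).A t)), ?_⟩
      refine ZFSet.ext fun z => ?_
      rw [mem_code_set]
      constructor
      · rintro ⟨x, hx, rfl⟩
        exact hx
      · intro hz
        obtain ⟨x, rfl⟩ := h' z hz
        exact ⟨x, hz, rfl⟩
    · rintro ⟨S, hS⟩ z hz
      rw [← hS, mem_code_set] at hz
      obtain ⟨x, -, hx⟩ := hz
      exact ⟨x, hx⟩
  | .fn s t, c, u, hu => by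
    have h1 : Df c.extV.extV.extV (fun γ => ((∃ x : den P (c.b γ.1.1.1).A s,
        code (c.b γ.1.1.1) s x = γ.1.2.1) ∧ ∃ y : den P (c.b γ.1.1.1).A t,
        code (c.b γ.1.1.1) t y = γ.2.1) ∧ γ.1.1.2.1 = ZFSet.pair γ.1.2.1 γ.2.1) :=
      ((Df.rng s (c := c.extV.extV.extV) DT.zV.wkV).and
        (Df.rng t (c := c.extV.extV.extV) DT.zV)).and (Df.eq DT.zV.wkV.wkV (DT.zV.wkV.pair DT.zV))
    have h2 := Df.exV (c := c.extV.extV) (R := fun γ z => ((∃ x : den P (c.b γ.1.1).A s,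
        code (c.b γ.1.1) s x = γ.2.1) ∧ ∃ y : den P (c.b γ.1.1).A t,
        code (c.b γ.1.1) t y = z) ∧ γ.1.2.1 = ZFSet.pair γ.2.1 z) h1
    have h3 := Df.exV (c := c.extV) (R := fun γ w => ∃ z ∈ V_ (c.b γ.1).β,
        ((∃ x : den P (c.b γ.1).A s, code (c.b γ.1) s x = w) ∧
        ∃ y : den P (c.b γ.1).A t, code (c.b γ.1) t y = z) ∧ γ.2.1 = ZFSet.pair w z) h2
    have h4 := Df.allM (c := c) (R := fun γ v => ∃ w ∈ V_ (c.b γ).β, ∃ z ∈ V_ (c.b γ).β,
        ((∃ x : den P (c.b γ).A s, code (c.b γ) s x = w) ∧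
        ∃ y : den P (c.b γ).A t, code (c.b γ) t y = z) ∧ v = ZFSet.pair w z) hu h3
    have k1 : Df c.extV.extV.extV (fun γ => ZFSet.pair γ.1.1.2.1 γ.2.1 ∈ u γ.1.1.1 →
        γ.2.1 = γ.1.2.1) :=
      (Df.mem (DT.zV.wkV.wkV.pair DT.zV) hu.wkV.wkV.wkV).imp (Df.eq DT.zV DT.zV.wkV)
    have k2 := Df.allV (c := c.extV.extV) (R := fun γ z => ZFSet.pair γ.1.2.1 z ∈ u γ.1.1 →
        z = γ.2.1) k1
    have k3 : Df c.extV.extV (fun γ => ZFSet.pair γ.1.2.1 γ.2.1 ∈ u γ.1.1) :=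
      Df.mem (DT.zV.wkV.pair DT.zV) hu.wkV.wkV
    have k4 := Df.exV (c := c.extV) (R := fun γ y => ZFSet.pair γ.2.1 y ∈ u γ.1 ∧
        ∀ z ∈ V_ (c.b γ.1).β, ZFSet.pair γ.2.1 z ∈ u γ.1 → z = y) (k3.and k2)
    have k5 := Df.allV (c := c) (R := fun γ x => (∃ x' : den P (c.b γ).A s,
        code (c.b γ) s x' = x) → ∃ y ∈ V_ (c.b γ).β, ZFSet.pair x y ∈ u γ ∧
        ∀ z ∈ V_ (c.b γ).β, ZFSet.pair x z ∈ u γ → z = y)
        ((Df.rng s (c := c.extV) DT.zV).imp k4)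
    refine (h4.and k5).congr fun γ => ?_
    constructor
    · rintro ⟨h, h'⟩
      have hf : ∀ x : den P (c.b γ).A s, ∃ y : den P (c.b γ).A t,
          ∀ z, ZFSet.pair (code (c.b γ) s x) z ∈ u γ ↔ z = code (c.b γ) t y := by
        intro x
        obtain ⟨y, hy, hyu, hyz⟩ := h' _ (code_mem (c.b γ) s x) ⟨x, rfl⟩
        obtain ⟨w, hw, z, hz, ⟨_, y', hy'⟩, he⟩ := h _ hyu
        obtain ⟨he1, he2⟩ := pair_inj.1 he
        refine ⟨y', fun z' => ⟨fun hz' => ?_, ?_⟩⟩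
        · have hz'V : z' ∈ V_ (c.b γ).β := by
            have h0 := mem_vonNeumann.1 ((c.b γ).mem_trans hz' (hu.1 γ))
            exact mem_vonNeumann.2 ((rank_lt_pr_right _ _).trans h0)
          rw [hyz z' hz'V hz', hy', he2]
        · rintro rfl
          rw [hy', ← he2]
          exact hyu
      choose f hf using hf
      refine ⟨f, ZFSet.ext fun z => ?_⟩
      rw [mem_code_fn]
      constructor
      · rintro ⟨x, rfl⟩
        exact (hf x _).2 rfl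
      · intro hz
        obtain ⟨w, hw, z', hz', ⟨⟨x, hx⟩, y', hy'⟩, rfl⟩ := h _ hz
        rw [← hx] at hz
        refine ⟨x, ?_⟩
        rw [(hf x _).1 hz, hx]
    · rintro ⟨f, hf⟩
      rw [← hf]
      constructor
      · intro z hz
        obtain ⟨x, rfl⟩ := (mem_code_fn (c.b γ) s t f z).1 hz
        exact ⟨_, code_mem (c.b γ) s x, _, code_mem (c.b γ) t _, ⟨⟨x, rfl⟩, ⟨_, rfl⟩⟩, rfl⟩
      · rintro _ - ⟨x, rfl⟩
        refine ⟨_, code_mem (c.b γ) t (f x), (pair_mem_fn (c.b γ) s t f x _).2 rfl, ?_⟩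
        intro z _ hz
        exact (pair_mem_fn (c.b γ) s t f x _).1 hz
  | .sum s t, c, u, hu => by
    have h1 : Df c.extV (fun γ => (∃ x : den P (c.b γ.1).A s, code (c.b γ.1) s x = γ.2.1) ∧
        ZFSet.pair ∅ γ.2.1 = u γ.1) :=
      (Df.rng s (c := c.extV) DT.zV).and (Df.eq (DT.empty.pair DT.zV) hu.wkV)
    have h2 : Df c.extV (fun γ => (∃ x : den P (c.b γ.1).A t, code (c.b γ.1) t x = γ.2.1) ∧
        ZFSet.pair {∅} γ.2.1 = u γ.1) :=
      (Df.rng t (c := c.extV) DT.zV).and (Df.eq (DT.empty.singleton.pair DT.zV) hu.wkV)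
    have h3 := Df.exV (c := c) (R := fun γ z => (∃ x : den P (c.b γ).A s,
        code (c.b γ) s x = z) ∧ ZFSet.pair ∅ z = u γ) h1
    have h4 := Df.exV (c := c) (R := fun γ z => (∃ x : den P (c.b γ).A t,
        code (c.b γ) t x = z) ∧ ZFSet.pair {∅} z = u γ) h2
    refine (h3.or h4).congr fun γ => ?_
    constructor
    · rintro (⟨z, _, ⟨x, rfl⟩, h⟩ | ⟨z, _, ⟨x, rfl⟩, h⟩)
      · exact ⟨Sum.inl x, h⟩
      · exact ⟨Sum.inr x, h⟩
    · rintro ⟨x | x, h⟩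
      · exact Or.inl ⟨_, code_mem (c.b γ) s x, ⟨x, rfl⟩, h⟩
      · exact Or.inr ⟨_, code_mem (c.b γ) t x, ⟨x, rfl⟩, h⟩

section rules
variable {c : Cx P}

/-- quantifiers over the type `t` -/
theorem Df.all (t : Ty P.Ix) {R : ∀ γ : c.Γ, den P (c.b γ).A t → Prop}
    (h : Df (c.ext t) (fun γ => R γ.1 γ.2)) : Df c (fun γ => ∀ x : den P (c.b γ).A t, R γ x) := by
  obtain ⟨φ, hφ⟩ := h
  obtain ⟨ρ, hρ⟩ := Df.rng t (c := c.extV) DT.zV
  refine ⟨.all (.imp ρ φ), fun γ => ⟨fun h x => ?_, fun h z hz => ?_⟩⟩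
  · exact (hφ ⟨γ, x⟩).1 (h ⟨code (c.b γ) t x, code_mem (c.b γ) t x⟩
      ((hρ ⟨γ, ⟨code (c.b γ) t x, code_mem (c.b γ) t x⟩⟩).2 ⟨x, rfl⟩))
  · obtain ⟨x, hx⟩ := (hρ ⟨γ, z⟩).1 hz
    have hz' : z = ⟨code (c.b γ) t x, code_mem (c.b γ) t x⟩ := Subtype.ext hx.symm
    rw [hz']
    exact (hφ ⟨γ, x⟩).2 (h x)

theorem Df.ex (t : Ty P.Ix) {R : ∀ γ : c.Γ, den P (c.b γ).A t → Prop}
    (h : Df (c.ext t) (fun γ => R γ.1 γ.2)) : Df c (fun γ => ∃ x : den P (c.b γ).A t, R γ x) :=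
  (Df.all t h.not).not.congr fun _ => not_forall_not

/-- `x` is a definable element of the type `t` -/
def Tm (c : Cx P) (t : Ty P.Ix) (x : ∀ γ : c.Γ, den P (c.b γ).A t) : Prop :=
  DT c (fun γ => code (c.b γ) t (x γ))

variable {s t : Ty P.Ix}

theorem Tm.wk (s : Ty P.Ix) {x : ∀ γ : c.Γ, den P (c.b γ).A t} (h : Tm c t x) :
    Tm (c.ext s) t (fun γ => x γ.1) := DT.wk s h

theorem Tm.v0 : Tm (c.ext t) t (fun γ => γ.2) := DT.z t

theorem Df.tmem {x : ∀ γ : c.Γ, den P (c.b γ).A t} {S : ∀ γ : c.Γ, Set (den P (c.b γ).A t)}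
    (hx : Tm c t x) (hS : Tm c (.set t) S) : Df c (fun γ => x γ ∈ S γ) :=
  (Df.mem hx hS).congr fun _ => code_mem_set _ _ _ _

theorem Df.teq {x y : ∀ γ : c.Γ, den P (c.b γ).A t} (hx : Tm c t x) (hy : Tm c t y) :
    Df c (fun γ => x γ = y γ) :=
  (Df.eq hx hy).congr fun _ => ⟨code_inj _ _ _ _, fun h => by rw [h]⟩

theorem Tm.app {f : ∀ γ : c.Γ, den P (c.b γ).A s → den P (c.b γ).A t}
    {x : ∀ γ : c.Γ, den P (c.b γ).A s} (hf : Tm c (.fn s t) f) (hx : Tm c s x) :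
    Tm c t (fun γ => f γ (x γ)) := by
  refine ⟨fun γ => code_mem _ _ _, ?_⟩
  have h1 : Df c.extV (fun γ => ZFSet.pair (code (c.b γ.1) s (x γ.1)) γ.2.1 ∈
      code (c.b γ.1) (.fn s t) (f γ.1)) :=
    Df.mem (DT.pair (DT.wkV hx) DT.zV) (DT.wkV hf)
  exact h1.congr fun _ => pair_mem_fn _ _ _ _ _ _

theorem Tm.inl (t : Ty P.Ix) {x : ∀ γ : c.Γ, den P (c.b γ).A s} (hx : Tm c s x) :
    Tm c (.sum s t) (fun γ => Sum.inl (x γ)) :=
  DT.pair DT.empty hx

theorem Tm.inr (s : Ty P.Ix) {x : ∀ γ : c.Γ, den P (c.b γ).A t} (hx : Tm c t x) :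
    Tm c (.sum s t) (fun γ => Sum.inr (x γ)) :=
  DT.pair DT.empty.singleton hx

/-- a constant of the type `F i` -/
theorem Tm.const {i : P.Ix} {x : P.F i} (h : P.j i x ∈ P.l) : Tm c (.F i) (fun _ => x) :=
  DT.l h

/-- the code of a relation -/
noncomputable def rlj {A B : Type} (f : A → ZFSet.{0}) (g : B → ZFSet.{0}) (R : A → B → Prop) :
    ZFSet.{0} :=
  range (fun p : {p : A × B // R p.1 p.2} => pair (f p.1.1) (g p.1.2))

theorem Df.rel {i k : P.Ix} {R : P.F i → P.F k → Prop} (h : rlj (P.j i) (P.j k) R ∈ P.l)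
    {x : c.Γ → P.F i} {y : c.Γ → P.F k}
    (hx : Tm c (.F i) x) (hy : Tm c (.F k) y) : Df c (fun γ => R (x γ) (y γ)) := by
  have h1 : Df c (fun γ => ZFSet.pair (P.j i (x γ)) (P.j k (y γ)) ∈
      rlj (P.j i) (P.j k) R) :=
    Df.mem (DT.pair hx hy) (DT.l h)
  refine h1.congr fun γ => ?_
  unfold rlj
  rw [mem_range]
  constructor
  · rintro ⟨p, hp⟩
    obtain ⟨h1, h2⟩ := pair_inj.1 hp
    rw [← P.inj i h1, ← P.inj k h2]
    exact p.2
  · intro h'
    exact ⟨⟨(x γ, y γ), h'⟩, rfl⟩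

end rules

end Pool.Agent.BPF.R
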